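import Mathlib

open Cardinal Set

namespace Pool.Agent.Results.MP_c086f7_lc.Classification

universe u

/-! ### The game `G(E)` -/

/-- One move: the set the player picks, and the two pieces into which he then splits it. -/
structure Move (E : Type u) where
  chosen : Set E
  left : Set E
  right : Set E

variable {E : Type u}

/-- `m` is a legal move after the finite history `h` (list of the earlier moves, oldest first):
at move 0 the chosen set is all of `E`, later it is one of the two pieces made at the previous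
move, and the chosen set is split into two disjoint sets whose union it is. -/
def LegalMove (h : List (Move E)) (m : Move E) : Prop :=
  (∀ p : Move E, h.getLast? = some p → m.chosen = p.left ∨ m.chosen = p.right) ∧
  (h = [] → m.chosen = Set.univ) ∧
  Disjoint m.left m.right ∧ m.left ∪ m.right = m.chosen

/-- The list of the first `n` moves of the infinite sequence `m`. -/
def hist (m : ℕ → Move E) (n : ℕ) : List (Move E) := (List.range n).map m

/-- All moves of the sequence are legal. -/
def IsPlay (m : ℕ → Move E) : Prop := ∀ n, LegalMove (hist m n) (m n)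

/-- A finite history all of whose moves are legal. -/
def LegalHistory (h : List (Move E)) : Prop :=
  ∀ (i : ℕ) (hi : i < h.length), LegalMove (h.take i) h[i]

/-- A wins the play iff the intersection of the sets `X_n`, `n ≥ 1`, is empty. -/
def AWins (m : ℕ → Move E) : Prop := (⋂ n : ℕ, (m (n + 1)).chosen) = ∅

/-- Player A (who makes the moves number 0, 2, 4, ...) has a winning strategy. -/
def HasWinningStrategyA (E : Type u) : Prop :=
  ∃ σ : List (Move E) → Move E,
    (∀ h, LegalHistory h → Even h.length → LegalMove h (σ h)) ∧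
    ∀ m : ℕ → Move E, IsPlay m → (∀ n, Even n → m n = σ (hist m n)) → AWins m

/-- Player B (who makes the moves number 1, 3, 5, ...) has a winning strategy. -/
def HasWinningStrategyB (E : Type u) : Prop :=
  ∃ τ : List (Move E) → Move E,
    (∀ h, LegalHistory h → Odd h.length → LegalMove h (τ h)) ∧
    ∀ m : ℕ → Move E, IsPlay m → (∀ n, Odd n → m n = τ (hist m n)) → ¬ AWins m


/-! ### The cutting game -/


/-- The part that Black keeps when White cuts by `Y`: the set `Y` if `b` is true, else its
complement. -/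
def side {E : Type u} (Y : Set E) (b : Bool) : Set E := {x | if b then x ∈ Y else x ∉ Y}

/-- The set that is left after the finite sequence `l` of cuts (oldest first), when Black answers by
the rule `τ`. -/
def kept {E : Type u} (τ : List (Set E) → Bool) (l : List (Set E)) : Set E :=
  {x | ∀ (i : ℕ) (hi : i < l.length), x ∈ side l[i] (τ (l.take (i + 1)))}

/-- The set that is left at the end of the infinite play in which White makes the cuts `C 0`,
`C 1`, ... and Black answers by the rule `τ`. -/
def outcome {E : Type u} (τ : List (Set E) → Bool) (C : ℕ → Set E) : Set E :=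
  ⋂ n, side (C n) (τ ((List.range (n + 1)).map C))

/-! ### A Bernstein type splitting lemma -/

theorem bernstein {ι X : Type} (κ : Cardinal.{0}) (hκ : ℵ₀ ≤ κ) (hι : #ι ≤ κ)
    (S : ι → Set X) (hS : ∀ i, κ ≤ #(S i)) :
    ∃ D : Set X, ∀ i, (S i ∩ D).Nonempty ∧ (S i \ D).Nonempty := by
  classical
  obtain ⟨r, wo, hr⟩ := Cardinal.exists_ord_eq ι
  have hseg : ∀ i, #{j // r j i} < κ := by
    intro i
    refine lt_of_lt_of_le ?_ hι
    have := Ordinal.typein_lt_type r i
    rw [← hr] at this
    have h2 := Cardinal.lt_ord.mp this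
    rwa [Ordinal.card_typein] at h2
  have hex : ∀ (i : ι) (g : (j : ι) → r j i → X × X), ∃ p : X × X,
      p.1 ∈ S i ∧ p.2 ∈ S i ∧ p.1 ≠ p.2 ∧
      ∀ j (hj : r j i), p.1 ≠ (g j hj).1 ∧ p.1 ≠ (g j hj).2 ∧ p.2 ≠ (g j hj).1 ∧
        p.2 ≠ (g j hj).2 := by
    intro i g
    let U : Set X := (Set.range (fun q : {j // r j i} => (g q.1 q.2).1)) ∪
      (Set.range (fun q : {j // r j i} => (g q.1 q.2).2))
    have hU : #U < κ := by
      refine lt_of_le_of_lt (Cardinal.mk_union_le _ _) ?_
      exact Cardinal.add_lt_of_lt hκ (lt_of_le_of_lt Cardinal.mk_range_le (hseg i))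
        (lt_of_le_of_lt Cardinal.mk_range_le (hseg i))
    have hdiff : κ ≤ #(S i \ U : Set X) := by
      by_contra hlt
      push Not at hlt
      have h1 : #(S i) ≤ #((S i \ U) ∪ U : Set X) := Cardinal.mk_le_mk_of_subset (by
        intro x hx
        by_cases hxU : x ∈ U
        · exact Or.inr hxU
        · exact Or.inl ⟨hx, hxU⟩)
      have h2 : #((S i \ U) ∪ U : Set X) < κ :=
        lt_of_le_of_lt (Cardinal.mk_union_le _ _) (Cardinal.add_lt_of_lt hκ hlt hU)
      exact absurd (hS i) (not_le.mpr (lt_of_le_of_lt h1 h2))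
    have hinf : (S i \ U : Set X).Infinite := by
      rw [← Set.infinite_coe_iff, Cardinal.infinite_iff]
      exact hκ.trans hdiff
    obtain ⟨a, ha⟩ := hinf.nonempty
    obtain ⟨b, hb, hba⟩ := hinf.exists_notMem_finite (Set.finite_singleton a)
    refine ⟨(a, b), ha.1, hb.1, fun e => hba (by simpa using e.symm), ?_⟩
    intro j hj
    refine ⟨fun e => ha.2 (Or.inl ⟨⟨j, hj⟩, e.symm⟩), fun e => ha.2 (Or.inr ⟨⟨j, hj⟩, e.symm⟩),
      fun e => hb.2 (Or.inl ⟨⟨j, hj⟩, e.symm⟩), fun e => hb.2 (Or.inr ⟨⟨j, hj⟩, e.symm⟩)⟩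
  choose F hF using hex
  have hwf : WellFounded r := wo.wf
  let P : ι → X × X := hwf.fix F
  have hP : ∀ i, P i = F i (fun j _ => P j) := fun i => hwf.fix_eq F i
  have key : ∀ i, (P i).1 ∈ S i ∧ (P i).2 ∈ S i ∧ (P i).1 ≠ (P i).2 ∧
      ∀ j, r j i → (P i).1 ≠ (P j).1 ∧ (P i).1 ≠ (P j).2 ∧ (P i).2 ≠ (P j).1 ∧
        (P i).2 ≠ (P j).2 := by
    intro i
    have := hF i (fun j _ => P j)
    rw [← hP i] at this
    exact this
  refine ⟨Set.range (fun i => (P i).1), fun i => ⟨⟨(P i).1, (key i).1, ⟨i, rfl⟩⟩, ?_⟩⟩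
  refine ⟨(P i).2, (key i).2.1, ?_⟩
  rintro ⟨j, hj⟩
  simp only at hj
  rcases trichotomous_of r i j with h | h | h
  · exact ((key j).2.2.2 i h).2.1 hj
  · subst h
    exact (key i).2.2.1 hj
  · exact ((key i).2.2.2 j h).2.2.1 hj.symm

/-- the list `[r (n-1), ..., r 0]` -/
def pre (r : ℕ → Bool) : ℕ → List Bool
  | 0 => []
  | n + 1 => r n :: pre r n

lemma pre_length (r : ℕ → Bool) (n : ℕ) : (pre r n).length = n := by
  induction n with
  | zero => rfl
  | succ n ih => simp [pre, ih]

lemma pre_congr {r s : ℕ → Bool} {n : ℕ} (h : ∀ k < n, r k = s k) : pre r n = pre s n := by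
  induction n with
  | zero => rfl
  | succ n ih =>
    simp only [pre]
    rw [h n (Nat.lt_succ_self n), ih (fun k hk => h k (Nat.lt_succ_of_lt hk))]

/-- the map of the Cantor set into itself coded by `φ` -/
def G (φ : List Bool → Bool) (r : ℕ → Bool) : ℕ → Bool := fun k => φ (pre r (k + 1))

theorem exists_splitting : ∃ D : Set (ℕ → Bool), ∀ φ : List Bool → Bool,
    Function.Injective (G φ) → (Set.range (G φ) ∩ D).Nonempty ∧ (Set.range (G φ) \ D).Nonempty := by
  have h1 : #{φ : List Bool → Bool // Function.Injective (G φ)} ≤ 𝔠 := by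
    refine (Cardinal.mk_subtype_le _).trans ?_
    simp
  obtain ⟨D, hD⟩ := bernstein (ι := {φ : List Bool → Bool // Function.Injective (G φ)}) 𝔠
    Cardinal.aleph0_le_continuum h1 (fun φ => Set.range (G φ.1)) (by
      intro φ
      rw [Cardinal.mk_range_eq _ φ.2]
      simp)
  exact ⟨D, fun φ hφ => hD ⟨φ, hφ⟩⟩

/-! ### The square principle -/

/-- `β` is a limit point of `A`. -/
def LimPt {W : Type u} [LinearOrder W] (A : Set W) (β : W) : Prop :=
  (∃ γ, γ < β) ∧ ∀ γ < β, ∃ δ ∈ A, γ < δ ∧ δ < β

/-- `A` is a closed unbounded subset of the set of predecessors of `α`. -/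
def ClubBelow {W : Type u} [LinearOrder W] (A : Set W) (α : W) : Prop :=
  A ⊆ Iio α ∧ (∀ β < α, ∃ γ ∈ A, β < γ) ∧ ∀ β < α, LimPt A β → β ∈ A

/-- The square principle of Todorcevic for the cardinal `κ`: a coherent sequence of clubs without
a thread. -/
def SquarePrinciple (κ : Cardinal.{u}) : Prop :=
  ∃ C : κ.ord.ToType → Set κ.ord.ToType,
    (∀ α, LimPt univ α → ClubBelow (C α) α) ∧
    (∀ α, LimPt univ α → ∀ β < α, LimPt (C α) β → C β = C α ∩ Iio β) ∧
    ¬ ∃ D : Set κ.ord.ToType, (∀ β, ∃ γ ∈ D, β < γ) ∧ (∀ β, LimPt D β → β ∈ D) ∧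
      ∀ β, LimPt D β → C β = D ∩ Iio β

/-- An abstract system of positions: `r p q` means that `q` properly extends `p`. -/
structure Sys (E : Type u) where
  P : Type u
  root : P
  r : P → P → Prop
  X : P → Set E
  trans : ∀ {p q s}, r p q → r q s → r p s
  mono : ∀ {p q}, r p q → X q ⊆ X p
  dec : ∀ p (Y : Set E), ∃ q, r p q ∧ (X q ⊆ Y ∨ X q ⊆ Yᶜ)
  split : ∀ p, ∃ q s, r p q ∧ r p s ∧ Disjoint (X q) (X s)
  win : ∀ c : ℕ → P, (∀ n, r (c n) (c (n + 1))) → ∃ x, ∀ n, x ∈ X (c n)

namespace Sys

variable {E : Type u} (S : Sys E)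

/-- Dependent choice along the extension relation, starting at `p`. -/
lemma exists_chain (p : S.P) (R : ℕ → S.P → S.P → Prop)
    (h : ∀ n q, (q = p ∨ S.r p q) → ∃ s, S.r q s ∧ R n q s) :
    ∃ c : ℕ → S.P, c 0 = p ∧ (∀ n, S.r (c n) (c (n + 1))) ∧ ∀ n, R n (c n) (c (n + 1)) := by
  choose! g hg using h
  let d : ℕ → {q : S.P // q = p ∨ S.r p q} := fun n =>
    Nat.rec ⟨p, Or.inl rfl⟩ (fun n q => ⟨g n q.1, by
      rcases q.2 with h | h
      · right
        have := (hg n q.1 q.2).1
        rwa [h] at this ⊢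
      · exact Or.inr (S.trans h (hg n q.1 q.2).1)⟩) n
  refine ⟨fun n => (d n).1, rfl, fun n => (hg n (d n).1 (d n).2).1,
    fun n => (hg n (d n).1 (d n).2).2⟩

lemma nonempty (p : S.P) : (S.X p).Nonempty := by
  obtain ⟨c, h0, h1, -⟩ := S.exists_chain p (fun _ _ _ => True)
    (fun _ q _ => (S.dec q ∅).imp (fun s hs => ⟨hs.1, trivial⟩))
  obtain ⟨x, hx⟩ := S.win c h1
  exact ⟨x, h0 ▸ hx 0⟩

/-- `f` is constant on `X q`. -/
def Const {T : Type*} (f : E → T) (q : S.P) : Prop := ∃ c, ∀ x ∈ S.X q, f x = c

lemma Const.mono {T : Type*} {f : E → T} {p q : S.P} (h : S.Const f p) (hpq : S.r p q) :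
    S.Const f q := by
  obtain ⟨c, hc⟩ := h
  exact ⟨c, fun x hx => hc x (S.mono hpq hx)⟩

/-- Every map to the Cantor set is decided. -/
theorem cantor (f : E → ℕ → Bool) (p : S.P) : ∃ q, S.r p q ∧ S.Const f q := by
  classical
  by_contra hcon
  push Not at hcon
  obtain ⟨D, hD⟩ := exists_splitting
  obtain ⟨p1, hp1, hp1D⟩ := S.dec p (f ⁻¹' D)
  let Q := {q : S.P // S.r p q}
  have key : ∀ (q : Q) (k : ℕ), ∃ (c : Bool → Q) (v : Bool → Bool),
      (∀ b, S.r q.1 (c b).1) ∧ (∀ b, ∀ x ∈ S.X (c b).1, f x k = v b) ∧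
      ∀ x ∈ S.X (c false).1, ∀ y ∈ S.X (c true).1, f x ≠ f y := by
    intro q k
    -- two extensions separated at some digit
    have h1 : ∃ (i : ℕ) (q0 q1 : S.P), S.r q.1 q0 ∧ S.r q.1 q1 ∧
        (∀ x ∈ S.X q0, f x i = false) ∧ (∀ x ∈ S.X q1, f x i = true) := by
      by_contra hno
      have hb : ∀ i, ∃ b : Bool, ∀ s, S.r q.1 s → ¬ ∀ x ∈ S.X s, f x i = !b := by
        intro i
        by_contra hb
        push Not at hb
        obtain ⟨s0, hs0, hs0'⟩ := hb true
        obtain ⟨s1, hs1, hs1'⟩ := hb false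
        exact hno ⟨i, s0, s1, hs0, hs1, fun x hx => by simpa using hs0' x hx,
          fun x hx => by simpa using hs1' x hx⟩
      choose b hb using hb
      obtain ⟨q', hq', hq'Y⟩ := S.dec q.1 {x | f x = b}
      rcases hq'Y with hY | hY
      · exact hcon q' (S.trans q.2 hq') ⟨b, fun x hx => hY hx⟩
      · obtain ⟨c, h0, h1, h2⟩ := S.exists_chain q'
          (fun n _ s => ∀ x ∈ S.X s, f x n = b n) (by
            intro n s hs
            obtain ⟨t, ht, htY⟩ := S.dec s {x | f x n = b n}
            refine ⟨t, ht, ?_⟩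
            rcases htY with h | h
            · exact fun x hx => h hx
            · exfalso
              refine hb n t ?_ ?_
              · rcases hs with rfl | hs
                · exact S.trans hq' ht
                · exact S.trans hq' (S.trans hs ht)
              · intro x hx
                have := h hx
                simp only [Set.mem_compl_iff, Set.mem_ofPred_eq] at this
                cases hh : f x n <;> cases hh' : b n <;> simp_all)
        obtain ⟨x, hx⟩ := S.win c h1
        have hxb : f x = b := funext fun n => h2 n x (hx (n + 1))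
        exact hY (h0 ▸ hx 0) hxb
    obtain ⟨i, q0, q1, hq0, hq1, hv0, hv1⟩ := h1
    -- decide the digit k
    have h2 : ∀ s, S.r q.1 s → ∃ (t : Q) (v : Bool), S.r s t.1 ∧ ∀ x ∈ S.X t.1, f x k = v := by
      intro s hs
      obtain ⟨t, ht, htY⟩ := S.dec s {x | f x k = true}
      rcases htY with h | h
      · exact ⟨⟨t, S.trans q.2 (S.trans hs ht)⟩, true, ht, fun x hx => h hx⟩
      · refine ⟨⟨t, S.trans q.2 (S.trans hs ht)⟩, false, ht, fun x hx => ?_⟩
        have := h hx
        simpa using this
    obtain ⟨t0, v0, ht0, hv0'⟩ := h2 q0 hq0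
    obtain ⟨t1, v1, ht1, hv1'⟩ := h2 q1 hq1
    refine ⟨fun b => cond b t1 t0, fun b => cond b v1 v0, ?_, ?_, ?_⟩
    · intro b
      cases b
      · exact S.trans hq0 ht0
      · exact S.trans hq1 ht1
    · intro b
      cases b
      · exact hv0'
      · exact hv1'
    · intro x hx y hy hxy
      have e1 := hv0 x (S.mono ht0 hx)
      have e2 := hv1 y (S.mono ht1 hy)
      rw [hxy, e2] at e1
      exact absurd e1 (by simp)
  choose c v hc hv hsep using key
  let node : List Bool → Q := fun l => List.rec ⟨p1, hp1⟩ (fun b l q => c q l.length b) l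
  have node_cons : ∀ b l, node (b :: l) = c (node l) l.length b := fun b l => rfl
  let φ : List Bool → Bool := fun l =>
    match l with
    | [] => true
    | b :: l => v (node l) l.length b
  have hwin : ∀ ρ : ℕ → Bool, ∃ x, ∀ n, x ∈ S.X (node (pre ρ n)).1 := by
    intro ρ
    exact S.win (fun n => (node (pre ρ n)).1) (fun n => hc _ _ _)
  choose y hy using hwin
  have hG : ∀ ρ, G φ ρ = f (y ρ) := by
    intro ρ
    funext k
    have h1 := hv (node (pre ρ k)) (pre ρ k).length (ρ k) (y ρ) (hy ρ (k + 1))
    rw [pre_length] at h1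
    rw [h1]
    show v (node (pre ρ k)) (pre ρ k).length (ρ k) = _
    rw [pre_length]
  have hinj : Function.Injective (G φ) := by
    intro ρ σ hρσ
    by_contra hne
    rw [hG, hG] at hρσ
    have hex : ∃ k, ρ k ≠ σ k := by
      by_contra hcon'
      push Not at hcon'
      exact hne (funext hcon')
    let k := Nat.find hex
    have hk : ρ k ≠ σ k := Nat.find_spec hex
    have hlt : ∀ j < k, ρ j = σ j := fun j hj => by
      by_contra hcon'
      exact Nat.find_min hex hj hcon'
    have hpre : pre ρ k = pre σ k := pre_congr hlt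
    have h1 : y ρ ∈ S.X (c (node (pre ρ k)) (pre ρ k).length (ρ k)).1 := hy ρ (k + 1)
    have h2 : y σ ∈ S.X (c (node (pre σ k)) (pre σ k).length (σ k)).1 := hy σ (k + 1)
    rw [← hpre] at h2
    cases hr : ρ k <;> cases hs : σ k
    · exact hk (hr.trans hs.symm)
    · rw [hr] at h1; rw [hs] at h2
      exact hsep _ _ _ h1 _ h2 hρσ
    · rw [hr] at h1; rw [hs] at h2
      exact hsep _ _ _ h2 _ h1 hρσ.symm
    · exact hk (hr.trans hs.symm)
  obtain ⟨⟨z, ⟨ρ, hρ⟩, hzD⟩, ⟨w, ⟨σ, hσ⟩, hwD⟩⟩ := hD φ hinj
  have h1 : y ρ ∈ S.X p1 := hy ρ 0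
  have h2 : y σ ∈ S.X p1 := hy σ 0
  rw [hG] at hρ hσ
  subst hρ
  subst hσ
  rcases hp1D with h | h
  · exact hwD (h h2)
  · exact h h1 hzD

/-! ### The critical cardinal -/

/-- there is an undecided map to a set of size `μ` -/
def Undec (μ : Cardinal.{u}) : Prop :=
  ∃ (p : S.P) (f : E → μ.ord.ToType), ∀ q, S.r p q → ¬ S.Const f q

lemma undec_of_type {T : Type u} (f : E → T) (p : S.P) (h : ∀ q, S.r p q → ¬ S.Const f q) :
    S.Undec #T := by
  have e : Nonempty (T ≃ (#T).ord.ToType) := by
    rw [← Cardinal.eq]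
    simp
  obtain ⟨e⟩ := e
  refine ⟨p, fun x => e (f x), fun q hq hc => h q hq ?_⟩
  obtain ⟨c, hc⟩ := hc
  exact ⟨e.symm c, fun x hx => by rw [← hc x hx]; simp⟩

lemma undec_mk : S.Undec #E := by
  refine S.undec_of_type id S.root (fun q _ hc => ?_)
  obtain ⟨c, hc⟩ := hc
  obtain ⟨a, b, ha, hb, hab⟩ := S.split q
  obtain ⟨x, hx⟩ := S.nonempty a
  obtain ⟨y, hy⟩ := S.nonempty b
  have e1 := hc x (S.mono ha hx)
  have e2 := hc y (S.mono hb hy)
  simp only [id] at e1 e2
  rw [← e2] at e1
  subst e1
  exact Set.disjoint_left.mp hab hx hy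

/-- the least size of an undecided map -/
noncomputable def crit : Cardinal.{u} :=
  WellFounded.min (wellFounded_lt : WellFounded ((· < ·) : Cardinal.{u} → Cardinal.{u} → Prop))
    {μ | S.Undec μ} ⟨_, S.undec_mk⟩

lemma undec_crit : S.Undec S.crit :=
  WellFounded.min_mem (wellFounded_lt : WellFounded ((· < ·) : Cardinal.{u} → Cardinal.{u} → Prop))
    {μ | S.Undec μ} ⟨_, S.undec_mk⟩

lemma crit_le : S.crit ≤ #E :=
  not_lt.mp (WellFounded.not_lt_min _ (s := {μ | S.Undec μ}) S.undec_mk)

lemma not_undec {μ : Cardinal.{u}} (h : μ < S.crit) : ¬ S.Undec μ := fun hu =>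
  WellFounded.not_lt_min _ (s := {μ | S.Undec μ}) hu h

/-- maps with small range are decided -/
lemma dec_small {T : Type u} (hT : #T < S.crit) (g : E → T) (p : S.P) :
    ∃ q, S.r p q ∧ S.Const g q := by
  by_contra hcon
  push Not at hcon
  exact S.not_undec hT (S.undec_of_type g p hcon)

lemma dec_small_set {T : Type u} (s : Set T) (hs : #s < S.crit) (g : E → T) (p : S.P)
    (h : ∀ x ∈ S.X p, g x ∈ s) : ∃ q, S.r p q ∧ S.Const g q := by
  classical
  obtain ⟨x0, hx0⟩ := S.nonempty p
  let g' : E → s := fun x => if hx : g x ∈ s then ⟨g x, hx⟩ else ⟨g x0, h x0 hx0⟩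
  obtain ⟨q, hq, c, hc⟩ := S.dec_small hs g' p
  refine ⟨q, hq, c.1, fun x hx => ?_⟩
  have h1 : g x ∈ s := h x (S.mono hq hx)
  have h2 := hc x hx
  simp only [g', dif_pos h1] at h2
  rw [← h2]

lemma continuum_lt_crit : 𝔠 < S.crit := by
  by_contra hle
  push Not at hle
  obtain ⟨p, f, hf⟩ := S.undec_crit
  have h1 : #S.crit.ord.ToType ≤ #(ULift.{u} (ℕ → Bool)) := by
    have e : #(ULift.{u} (ℕ → Bool)) = 𝔠 := by simp
    rw [e]
    simpa using hle
  obtain ⟨g⟩ := h1
  obtain ⟨q, hq, c, hc⟩ := S.cantor (fun x => (g (f x)).down) p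
  obtain ⟨x0, hx0⟩ := S.nonempty q
  refine hf q hq ⟨f x0, fun x hx => ?_⟩
  have := (hc x hx).trans (hc x0 hx0).symm
  exact g.injective (ULift.down_injective this)

lemma aleph0_le_crit : ℵ₀ ≤ S.crit := Cardinal.aleph0_le_continuum.trans S.continuum_lt_crit.le

lemma mk_Iic_lt (w : S.crit.ord.ToType) : #(Iic w) < S.crit := by
  have h : ℵ₀ ≤ #S.crit.ord.ToType := by simpa using S.aleph0_le_crit
  have := Cardinal.mk_Iic_lt w (by simp) h
  simpa using this

/-- an undecided map is eventually above every element -/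
lemma above {p : S.P} {f : E → S.crit.ord.ToType} (hf : ∀ q, S.r p q → ¬ S.Const f q)
    {q : S.P} (hq : S.r p q) (w : S.crit.ord.ToType) : ∃ s, S.r q s ∧ ∀ x ∈ S.X s, w < f x := by
  obtain ⟨s, hs, hsY⟩ := S.dec q {x | w < f x}
  rcases hsY with h | h
  · exact ⟨s, hs, fun x hx => h hx⟩
  · exfalso
    obtain ⟨t, ht, hc⟩ := S.dec_small_set (Iic w) (S.mk_Iic_lt w) f s (fun x hx => by
      have := h hx
      simpa using this)
    exact hf t (S.trans hq (S.trans hs ht)) hc

lemma noMax (w : S.crit.ord.ToType) : ∃ v, w < v := by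
  obtain ⟨p, f, hf⟩ := S.undec_crit
  obtain ⟨q, hq, -⟩ := S.dec p ∅
  obtain ⟨s, -, hs⟩ := S.above hf hq w
  obtain ⟨x, hx⟩ := S.nonempty s
  exact ⟨f x, hs x hx⟩

lemma isRegular_crit : S.crit.IsRegular := by
  refine ⟨S.aleph0_le_crit, ?_⟩
  rw [← Ordinal.cof_toType, Order.le_cof_iff]
  intro s hs
  by_contra hlt
  push Not at hlt
  obtain ⟨p, f, hf⟩ := S.undec_crit
  choose g hg hfg using fun x => hs (f x)
  obtain ⟨q, hq, c, hc⟩ := S.dec_small_set s hlt g p (fun x _ => hg x)
  obtain ⟨t, ht, hct⟩ := S.above hf hq c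
  obtain ⟨x, hx⟩ := S.nonempty t
  have h1 := hct x hx
  have h2 := hfg x
  rw [hc x (S.mono ht hx)] at h2
  exact absurd h1 (not_lt.mpr h2)

/-- countable sequences are bounded in `crit` -/
lemma exists_bound (w : ℕ → S.crit.ord.ToType) : ∃ v, ∀ n, w n < v := by
  have h1 : ¬ IsCofinal (Set.range w) := by
    intro hc
    have h2 := (Order.le_cof_iff.mp (le_refl (Order.cof S.crit.ord.ToType))) _ hc
    rw [Ordinal.cof_toType, S.isRegular_crit.cof_ord] at h2
    have h3 : #(Set.range w) ≤ ℵ₀ := Cardinal.mk_le_aleph0_iff.mpr (Set.countable_range w).to_subtype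
    exact absurd (h2.trans h3) (not_le.mpr (Cardinal.aleph0_lt_continuum.trans S.continuum_lt_crit))
  unfold IsCofinal at h1
  push Not at h1
  obtain ⟨v, hv⟩ := h1
  exact ⟨v, fun n => hv (w n) ⟨n, rfl⟩⟩

/-- a minimal undecided map -/
lemma exists_normal : ∃ (p : S.P) (f : E → S.crit.ord.ToType), (∀ q, S.r p q → ¬ S.Const f q) ∧
    ∀ q, S.r p q → ∀ g : E → S.crit.ord.ToType, (∀ x ∈ S.X q, g x < f x) →
      ∃ s, S.r q s ∧ S.Const g s := by
  by_contra hcon
  push Not at hcon
  let A := {a : S.P × (E → S.crit.ord.ToType) // ∀ q, S.r a.1 q → ¬ S.Const a.2 q}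
  have step : ∀ a : A, ∃ b : A, S.r a.1.1 b.1.1 ∧ ∀ x ∈ S.X b.1.1, b.1.2 x < a.1.2 x := by
    rintro ⟨⟨p, f⟩, hf⟩
    obtain ⟨q, hq, g, hg, hgc⟩ := hcon p f hf
    exact ⟨⟨(q, g), hgc⟩, hq, hg⟩
  choose nx h1 h2 using step
  obtain ⟨p, f, hf⟩ := S.undec_crit
  let a : ℕ → A := fun n => nx^[n] ⟨(p, f), hf⟩
  have ha : ∀ n, a (n + 1) = nx (a n) := fun n => Function.iterate_succ_apply' _ _ _
  obtain ⟨x, hx⟩ := S.win (fun n => (a n).1.1) (fun n => by rw [ha]; exact h1 (a n))
  have hdec : ∀ n, (a (n + 1)).1.2 x < (a n).1.2 x := by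
    intro n
    have := hx (n + 1)
    rw [ha] at this ⊢
    exact h2 (a n) x this
  exact (RelEmbedding.natGT (fun n => (a n).1.2 x) hdec).not_wellFounded
    (wellFounded_lt : WellFounded ((· < ·) : S.crit.ord.ToType → _ → Prop))

/-- The square principle fails at the critical cardinal. -/
theorem not_square : ¬ SquarePrinciple S.crit := by
  classical
  rintro ⟨C, hclub, hcoh, hthread⟩
  obtain ⟨p, f, hf, hn⟩ := S.exists_normal
  -- the values are eventually limits
  have hlim : ∀ q, S.r p q → ∃ s, S.r q s ∧ ∀ x ∈ S.X s, LimPt univ (f x) := by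
    intro q hq
    obtain ⟨s, hs, hsY⟩ := S.dec q {x | LimPt univ (f x)}
    rcases hsY with h | h
    · exact ⟨s, hs, fun x hx => h hx⟩
    · exfalso
      obtain ⟨x0, hx0⟩ := S.nonempty s
      obtain ⟨t, ht, hct⟩ := S.above hf (S.trans hq hs) (f x0)
      have hpred : ∀ x ∈ S.X t, ∃ β, β < f x ∧ ∀ δ, β < δ → ¬ δ < f x := by
        intro x hx
        have h1 := h (S.mono ht hx)
        simp only [Set.mem_compl_iff, Set.mem_ofPred_eq, LimPt, not_and, not_forall] at h1
        obtain ⟨β, hβ, hβ'⟩ := h1 ⟨f x0, hct x hx⟩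
        exact ⟨β, hβ, fun δ hδ hδ' => hβ' ⟨δ, trivial, hδ, hδ'⟩⟩
      let g : E → S.crit.ord.ToType := fun x =>
        if hx : ∃ β, β < f x ∧ ∀ δ, β < δ → ¬ δ < f x then hx.choose else f x
      have hg : ∀ x ∈ S.X t, g x < f x ∧ ∀ δ, g x < δ → ¬ δ < f x := by
        intro x hx
        have h1 := hpred x hx
        simp only [g, dif_pos h1]
        exact h1.choose_spec
      obtain ⟨v, hv, c, hc⟩ := hn t (S.trans hq (S.trans hs ht)) g (fun x hx => (hg x hx).1)
      obtain ⟨x1, hx1⟩ := S.nonempty v
      refine hf v (S.trans hq (S.trans hs (S.trans ht hv))) ⟨f x1, fun x hx => ?_⟩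
      have e1 := hg x (S.mono hv hx)
      have e2 := hg x1 (S.mono hv hx1)
      rw [hc x hx] at e1
      rw [hc x1 hx1] at e2
      rcases lt_trichotomy (f x) (f x1) with h3 | h3 | h3
      · exact absurd h3 (e2.2 _ e1.1)
      · exact h3
      · exact absurd h3 (e1.2 _ e2.1)
  -- the next element of the club can be decided
  have hnext : ∀ a, S.r p a → ∀ w, ∃ b w', S.r a b ∧ w < w' ∧
      ∀ x ∈ S.X b, LimPt univ (f x) ∧ w < f x ∧ w' ∈ C (f x) := by
    intro a ha w
    obtain ⟨b, hb, hbl⟩ := hlim a ha
    obtain ⟨c, hc, hcw⟩ := S.above hf (S.trans ha hb) w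
    have h1 : ∀ x ∈ S.X c, ∃ v, v ∈ C (f x) ∧ w < v := by
      intro x hx
      obtain ⟨v, hv, hwv⟩ := (hclub _ (hbl x (S.mono hc hx))).2.1 w (hcw x hx)
      exact ⟨v, hv, hwv⟩
    let g : E → S.crit.ord.ToType := fun x =>
      if hx : ∃ v, v ∈ C (f x) ∧ w < v then hx.choose else f x
    have hg : ∀ x ∈ S.X c, g x ∈ C (f x) ∧ w < g x := by
      intro x hx
      have h2 := h1 x hx
      simp only [g, dif_pos h2]
      exact h2.choose_spec
    obtain ⟨d, hd, e, he⟩ := hn c (S.trans ha (S.trans hb hc)) g (fun x hx =>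
      (hclub _ (hbl x (S.mono hc hx))).1 (hg x hx).1)
    obtain ⟨x0, hx0⟩ := S.nonempty d
    have hwe : w < e := by
      have := (hg x0 (S.mono hd hx0)).2
      rwa [he x0 hx0] at this
    refine ⟨d, e, S.trans hb (S.trans hc hd), hwe, fun x hx => ?_⟩
    have hxc := S.mono hd hx
    refine ⟨hbl x (S.mono hc hxc), hcw x hxc, ?_⟩
    have := (hg x hxc).1
    rwa [he x hx] at this
  -- two conditions cannot decide membership in the generic club differently
  have hagree : ∀ β q q', S.r p q → S.r p q' → (∀ x ∈ S.X q, β ∈ C (f x)) →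
      (∀ x ∈ S.X q', β ∉ C (f x)) → False := by
    intro β q q' hq hq' h1 h2
    have hne : Nonempty S.crit.ord.ToType := ⟨β⟩
    have hneP : Nonempty S.P := ⟨p⟩
    choose! nb nw hb hw hC using hnext
    -- states: (a, b, w)
    let T := {t : (S.P × S.P) × S.crit.ord.ToType // S.r p t.1.1 ∧ S.r p t.1.2}
    let nx : T → T := fun t =>
      ⟨((nb t.1.1.1 t.1.2, nb t.1.1.2 (nw t.1.1.1 t.1.2)), nw t.1.1.2 (nw t.1.1.1 t.1.2)),
        S.trans t.2.1 (hb _ t.2.1 _), S.trans t.2.2 (hb _ t.2.2 _)⟩
    let t : ℕ → T := fun n => nx^[n] ⟨((q, q'), β), hq, hq'⟩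
    have ht : ∀ n, t (n + 1) = nx (t n) := fun n => Function.iterate_succ_apply' _ _ _
    obtain ⟨x, hx⟩ := S.win (fun n => (t n).1.1.1) (fun n => by
      rw [ht]; exact hb _ (t n).2.1 _)
    obtain ⟨y, hy⟩ := S.win (fun n => (t n).1.1.2) (fun n => by
      rw [ht]; exact hb _ (t n).2.2 _)
    let u : ℕ → S.crit.ord.ToType := fun n => nw (t n).1.1.1 (t n).1.2
    let w : ℕ → S.crit.ord.ToType := fun n => (t n).1.2
    have hwu : ∀ n, w n < u n := fun n => hw _ (t n).2.1 _
    have huw : ∀ n, u n < w (n + 1) := fun n => by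
      have := hw (t n).1.1.2 (t n).2.2 (u n)
      show u n < (t (n + 1)).1.2
      rw [ht]
      exact this
    have hux : ∀ n, u n ∈ C (f x) := fun n => by
      have := hx (n + 1)
      rw [ht] at this
      exact (hC _ (t n).2.1 _ x this).2.2
    have hwy : ∀ n, w (n + 1) ∈ C (f y) := fun n => by
      have := hy (n + 1)
      rw [ht] at this
      have h3 := (hC _ (t n).2.2 _ y this).2.2
      show (t (n + 1)).1.2 ∈ _
      rw [ht]
      exact h3
    have hlx : LimPt univ (f x) := by
      have := hx 1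
      rw [ht] at this
      exact (hC _ (t 0).2.1 _ x this).1
    have hly : LimPt univ (f y) := by
      have := hy 1
      rw [ht] at this
      exact (hC _ (t 0).2.2 _ y this).1
    -- the supremum
    obtain ⟨b0, hb0⟩ := S.exists_bound w
    let δ := WellFounded.min (wellFounded_lt : WellFounded ((· < ·) : S.crit.ord.ToType → _ → Prop))
      {v | ∀ n, w n < v} ⟨b0, hb0⟩
    have hδ : ∀ n, w n < δ := WellFounded.min_mem
      (wellFounded_lt : WellFounded ((· < ·) : S.crit.ord.ToType → _ → Prop))
      {v | ∀ n, w n < v} ⟨b0, hb0⟩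
    have hδmin : ∀ v, (∀ n, w n < v) → δ ≤ v := fun v hv =>
      not_lt.mp (WellFounded.not_lt_min _ (s := {v | ∀ n, w n < v}) hv)
    have hsup : ∀ γ < δ, ∃ n, γ < w n := by
      intro γ hγ
      by_contra hcon
      push Not at hcon
      have : ∀ n, w n < γ := fun n => ((hwu n).trans (huw n)).trans_le (hcon (n + 1))
      exact absurd hγ (not_lt.mpr (hδmin γ this))
    have hβ : β < δ := hδ 0
    have ex : C δ = C (f x) ∩ Iio δ := by
      have hle : δ ≤ f x := hδmin _ (fun n => (hwu n).trans ((hclub _ hlx).1 (hux n)))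
      rcases hle.lt_or_eq with h3 | h3
      · refine hcoh _ hlx δ h3 ⟨⟨β, hβ⟩, fun γ hγ => ?_⟩
        obtain ⟨n, hn'⟩ := hsup γ hγ
        exact ⟨u n, hux n, hn'.trans (hwu n), (huw n).trans (hδ (n + 1))⟩
      · rw [← h3]
        rw [← h3] at hlx
        exact (Set.inter_eq_left.mpr (hclub _ hlx).1).symm
    have ey : C δ = C (f y) ∩ Iio δ := by
      have hle : δ ≤ f y := hδmin _ (fun n =>
        ((hwu n).trans (huw n)).trans ((hclub _ hly).1 (hwy n)))
      rcases hle.lt_or_eq with h3 | h3
      · refine hcoh _ hly δ h3 ⟨⟨β, hβ⟩, fun γ hγ => ?_⟩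
        obtain ⟨n, hn'⟩ := hsup γ hγ
        exact ⟨w (n + 1), hwy n, hn'.trans ((hwu n).trans (huw n)), hδ (n + 1)⟩
      · rw [← h3]
        rw [← h3] at hly
        exact (Set.inter_eq_left.mpr (hclub _ hly).1).symm
    have m1 : β ∈ C δ := by
      rw [ex]
      exact ⟨h1 x (hx 0), hβ⟩
    rw [ey] at m1
    exact h2 y (hy 0) m1.1
  -- the thread
  refine hthread ⟨{β | ∃ q, S.r p q ∧ ∀ x ∈ S.X q, β ∈ C (f x)}, ?_, ?_⟩
  · intro β
    obtain ⟨q, hq, -⟩ := S.dec p ∅
    obtain ⟨b, w', hb, hw', hb'⟩ := hnext q hq β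
    exact ⟨w', ⟨b, S.trans hq hb, fun x hx => (hb' x hx).2.2⟩, hw'⟩
  · have hforce : ∀ β, (∃ q, S.r p q ∧ ∀ x ∈ S.X q, β ∈ C (f x)) → ∀ s, S.r p s →
        ∃ t, S.r s t ∧ ∀ x ∈ S.X t, β ∈ C (f x) := by
      rintro β ⟨q, hq, hqβ⟩ s hs
      obtain ⟨t, ht, htY⟩ := S.dec s {x | β ∈ C (f x)}
      rcases htY with h | h
      · exact ⟨t, ht, fun x hx => h hx⟩
      · exact (hagree β q t hq (S.trans hs ht) hqβ (fun x hx => h hx)).elim
    have hmain : ∀ α, LimPt {β | ∃ q, S.r p q ∧ ∀ x ∈ S.X q, β ∈ C (f x)} α →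
        ∃ s, S.r p s ∧ ∀ x ∈ S.X s, LimPt univ (f x) ∧ α < f x ∧ LimPt (C (f x)) α := by
      intro α hα
      obtain ⟨q, hq, -⟩ := S.dec p ∅
      obtain ⟨q1, hq1, hq1'⟩ := hlim q hq
      obtain ⟨q2, hq2, hq2'⟩ := S.above hf (S.trans hq hq1) α
      obtain ⟨s, hs, hsY⟩ := S.dec q2 {x | LimPt (C (f x)) α}
      have hps : S.r p s := S.trans hq (S.trans hq1 (S.trans hq2 hs))
      rcases hsY with h | h
      · exact ⟨s, hps, fun x hx =>
          ⟨hq1' x (S.mono hq2 (S.mono hs hx)), hq2' x (S.mono hs hx), h hx⟩⟩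
      · exfalso
        have h1 : ∀ x ∈ S.X s, ∃ γ, γ < α ∧ ∀ δ ∈ C (f x), ¬ (γ < δ ∧ δ < α) := by
          intro x hx
          have h2 := h hx
          simp only [Set.mem_compl_iff, Set.mem_ofPred_eq, LimPt, not_and, not_forall] at h2
          obtain ⟨γ, hγ, hγ'⟩ := h2 hα.1
          refine ⟨γ, hγ, fun δ hδ hh => hγ' ⟨δ, hδ, hh⟩⟩
        let g : E → S.crit.ord.ToType := fun x =>
          if hx : ∃ γ, γ < α ∧ ∀ δ ∈ C (f x), ¬ (γ < δ ∧ δ < α) then hx.choose else α
        have hg : ∀ x ∈ S.X s, g x < α ∧ ∀ δ ∈ C (f x), ¬ (g x < δ ∧ δ < α) := by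
          intro x hx
          have h2 := h1 x hx
          simp only [g, dif_pos h2]
          exact h2.choose_spec
        obtain ⟨t, ht, γ, hγ⟩ := S.dec_small_set (Iic α) (S.mk_Iic_lt α) g s
          (fun x hx => (hg x hx).1.le)
        obtain ⟨x0, hx0⟩ := S.nonempty t
        have hγα : γ < α := by
          rw [← hγ x0 hx0]
          exact (hg x0 (S.mono ht hx0)).1
        obtain ⟨δ, hδD, hγδ, hδα⟩ := hα.2 γ hγα
        obtain ⟨t', ht', ht''⟩ := hforce δ hδD t (S.trans hps ht)
        obtain ⟨x1, hx1⟩ := S.nonempty t'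
        have h3 := (hg x1 (S.mono ht (S.mono ht' hx1))).2 δ (ht'' x1 hx1)
        rw [hγ x1 (S.mono ht' hx1)] at h3
        exact h3 ⟨hγδ, hδα⟩
    refine ⟨?_, ?_⟩
    · intro α hα
      obtain ⟨s, hs, hs'⟩ := hmain α hα
      exact ⟨s, hs, fun x hx => (hclub _ (hs' x hx).1).2.2 α (hs' x hx).2.1 (hs' x hx).2.2⟩
    · intro α hα
      obtain ⟨s, hs, hs'⟩ := hmain α hα
      have hC : ∀ x ∈ S.X s, C α = C (f x) ∩ Iio α := fun x hx =>
        hcoh _ (hs' x hx).1 α (hs' x hx).2.1 (hs' x hx).2.2
      ext β
      constructor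
      · intro hβ
        obtain ⟨x0, hx0⟩ := S.nonempty s
        have hβα : β < α := by
          rw [hC x0 hx0] at hβ
          exact hβ.2
        refine ⟨⟨s, hs, fun x hx => ?_⟩, hβα⟩
        rw [hC x hx] at hβ
        exact hβ.1
      · rintro ⟨hβD, hβα⟩
        obtain ⟨t, ht, ht'⟩ := hforce β hβD s hs
        obtain ⟨x0, hx0⟩ := S.nonempty t
        rw [hC x0 (S.mono ht hx0)]
        exact ⟨ht' x0 hx0, hβα⟩

end Sys

/-! ### Lists and sequences -/

lemma exists_seq {C : Type u} (l : ℕ → List C) (h : ∀ n, ∃ t, t ≠ [] ∧ l (n + 1) = l n ++ t) :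
    ∃ a : ℕ → C, ∀ n, l n = (List.range (l n).length).map a := by
  have hlen : ∀ n, n ≤ (l n).length := by
    intro n
    induction n with
    | zero => exact Nat.zero_le _
    | succ n ih =>
      obtain ⟨t, ht, ht'⟩ := h n
      rw [ht', List.length_append]
      have := List.length_pos_iff.mpr ht
      omega
  have hpre : ∀ n m, n ≤ m → l n <+: l m := by
    intro n m hnm
    induction m, hnm using Nat.le_induction with
    | base => exact List.prefix_refl _
    | succ m _ ih =>
      obtain ⟨t, -, ht'⟩ := h m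
      rw [ht']
      exact ih.trans (List.prefix_append _ _)
  refine ⟨fun i => (l (i + 1))[i]'(by have := hlen (i + 1); omega), fun n => ?_⟩
  refine List.ext_getElem (by simp) (fun i h1 h2 => ?_)
  simp only [List.getElem_map, List.getElem_range]
  rcases le_total n (i + 1) with h3 | h3
  · exact (hpre n (i + 1) h3).getElem h1
  · exact ((hpre (i + 1) n h3).getElem (by have := hlen (i + 1); omega)).symm

/-! ### From strategies in the cutting game to systems and back -/

section Ulam

variable {E : Type u}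

lemma kept_append (τ : List (Set E) → Bool) (l t : List (Set E)) :
    kept τ (l ++ t) ⊆ kept τ l := by
  intro x hx i hi
  have h1 := hx i (by rw [List.length_append]; omega)
  rwa [List.getElem_append_left hi, List.take_append_of_le_length hi] at h1

lemma kept_snoc (τ : List (Set E) → Bool) (l : List (Set E)) (Y : Set E) :
    kept τ (l ++ [Y]) ⊆ side Y (τ (l ++ [Y])) := by
  intro x hx
  have h1 := hx l.length (by simp)
  rw [List.take_of_length_le (by simp)] at h1
  simpa using h1

lemma side_cases (Y : Set E) (b : Bool) : side Y b ⊆ Y ∨ side Y b ⊆ Yᶜ := by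
  cases b
  · right; exact fun x hx => hx
  · left; exact fun x hx => hx

lemma outcome_subset_kept (τ : List (Set E) → Bool) (S : ℕ → Set E) (n : ℕ) :
    outcome τ S ⊆ kept τ ((List.range n).map S) := by
  intro x hx i hi
  have h1 := Set.mem_iInter.mp hx i
  have hi' : i < n := by simpa using hi
  have e : ((List.range n).map S).take (i + 1) = (List.range (i + 1)).map S := by
    rw [← List.map_take, List.take_range, min_eq_left (by omega)]
  rw [e]
  simpa using h1

/-- The system of positions of a strategy of Black in the cutting game. -/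
def sysOfCut (τ : List (Set E) → Bool) (hne : ∀ S, (outcome τ S).Nonempty)
    (hnd : ∀ l, ∃ l₁ l₂, Disjoint (kept τ (l ++ l₁)) (kept τ (l ++ l₂))) : Sys E where
  P := List (Set E)
  root := []
  r := fun l l' => ∃ t, t ≠ [] ∧ l' = l ++ t
  X := kept τ
  trans := by
    rintro p q s ⟨t, ht, rfl⟩ ⟨t', -, rfl⟩
    exact ⟨t ++ t', by simp [ht], by simp⟩
  mono := by
    rintro p q ⟨t, -, rfl⟩
    exact kept_append τ p t
  dec := fun p Y => ⟨p ++ [Y], ⟨[Y], by simp, rfl⟩, by
    rcases side_cases Y (τ (p ++ [Y])) with h | h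
    · exact Or.inl ((kept_snoc τ p Y).trans h)
    · exact Or.inr ((kept_snoc τ p Y).trans h)⟩
  split := fun p => by
    obtain ⟨l₁, l₂, h⟩ := hnd p
    refine ⟨p ++ (l₁ ++ [∅]), p ++ (l₂ ++ [∅]), ⟨_, by simp, rfl⟩, ⟨_, by simp, rfl⟩, ?_⟩
    rw [← List.append_assoc, ← List.append_assoc]
    exact h.mono (kept_append _ _ _) (kept_append _ _ _)
  win := by
    intro c hc
    obtain ⟨a, ha⟩ := exists_seq c hc
    obtain ⟨x, hx⟩ := hne a
    exact ⟨x, fun n => by rw [ha n]; exact outcome_subset_kept τ a _ hx⟩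

variable (S : Sys E)

open Classical in
/-- one step of the strategy of Black built from a system -/
noncomputable def cutStep (p : S.P) (Y : Set E) : S.P :=
  if h : ∃ q, S.r p q ∧ S.X q ⊆ Y then h.choose else (S.dec p Y).choose

lemma cutStep_r (p : S.P) (Y : Set E) : S.r p (cutStep S p Y) := by
  unfold cutStep
  split_ifs with h
  · exact h.choose_spec.1
  · exact (S.dec p Y).choose_spec.1

lemma cutStep_pos (p : S.P) (Y : Set E) (h : ∃ q, S.r p q ∧ S.X q ⊆ Y) :
    S.X (cutStep S p Y) ⊆ Y := by
  unfold cutStep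
  rw [dif_pos h]
  exact h.choose_spec.2

lemma cutStep_neg (p : S.P) (Y : Set E) (h : ¬ ∃ q, S.r p q ∧ S.X q ⊆ Y) :
    S.X (cutStep S p Y) ⊆ Yᶜ := by
  unfold cutStep
  rw [dif_neg h]
  rcases (S.dec p Y).choose_spec.2 with h' | h'
  · exact absurd ⟨_, (S.dec p Y).choose_spec.1, h'⟩ h
  · exact h'

/-- the position reached after the cuts `l` -/
noncomputable def cutPos (l : List (Set E)) : S.P := l.foldl (cutStep S) S.root

lemma cutPos_snoc (l : List (Set E)) (Y : Set E) :
    cutPos S (l ++ [Y]) = cutStep S (cutPos S l) Y := by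
  simp [cutPos]

open Classical in
/-- the strategy of Black built from a system -/
noncomputable def cutStrat (l : List (Set E)) : Bool :=
  decide (∃ q, S.r (cutPos S l.dropLast) q ∧ S.X q ⊆ l.getLast?.getD ∅)

lemma cutStrat_snoc_true (l : List (Set E)) (Y : Set E)
    (h : ∃ q, S.r (cutPos S l) q ∧ S.X q ⊆ Y) : cutStrat S (l ++ [Y]) = true := by
  unfold cutStrat
  rw [List.dropLast_concat, List.getLast?_concat]
  simpa using h

lemma cutStrat_snoc_false (l : List (Set E)) (Y : Set E)
    (h : ¬ ∃ q, S.r (cutPos S l) q ∧ S.X q ⊆ Y) : cutStrat S (l ++ [Y]) = false := by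
  unfold cutStrat
  rw [List.dropLast_concat, List.getLast?_concat]
  simpa using h

lemma cutPos_side (l : List (Set E)) (Y : Set E) :
    S.X (cutPos S (l ++ [Y])) ⊆ side Y (cutStrat S (l ++ [Y])) := by
  rw [cutPos_snoc]
  by_cases h : ∃ q, S.r (cutPos S l) q ∧ S.X q ⊆ Y
  · rw [cutStrat_snoc_true S l Y h]
    exact cutStep_pos S _ Y h
  · rw [cutStrat_snoc_false S l Y h]
    exact cutStep_neg S _ Y h

include S in
theorem exists_cutStrat : ∃ τ : List (Set E) → Bool, (∀ C, (outcome τ C).Nonempty) ∧
    ∀ l, ∃ l₁ l₂, Disjoint (kept τ (l ++ l₁)) (kept τ (l ++ l₂)) := by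
  refine ⟨cutStrat S, fun C => ?_, fun l => ?_⟩
  · obtain ⟨x, hx⟩ := S.win (fun n => cutPos S ((List.range n).map C)) (fun n => by
      rw [List.range_succ, List.map_append, List.map_singleton, cutPos_snoc]
      exact cutStep_r S _ _)
    refine ⟨x, Set.mem_iInter.mpr (fun n => ?_)⟩
    have h1 := hx (n + 1)
    rw [List.range_succ, List.map_append, List.map_singleton] at h1 ⊢
    exact cutPos_side S _ _ h1
  · obtain ⟨q, s, hq, hs, hqs⟩ := S.split (cutPos S l)
    refine ⟨[S.X q], [S.X s], hqs.mono ?_ ?_⟩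
    · have h1 := kept_snoc (cutStrat S) l (S.X q)
      rw [cutStrat_snoc_true S l _ ⟨q, hq, subset_rfl⟩] at h1
      exact h1
    · have h1 := kept_snoc (cutStrat S) l (S.X s)
      rw [cutStrat_snoc_true S l _ ⟨s, hs, subset_rfl⟩] at h1
      exact h1

/-- Below the first measurable cardinal a winning strategy of Black in the game of Ulam is nowhere
decided. -/
theorem nowhereDecided_of_noMeasure
    (hE : ∀ U : Ultrafilter E, CountableInterFilter (U : Filter E) → ∃ x, U = pure x)
    (τ : List (Set E) → Bool) (hτ : ∀ C, (outcome τ C).Nontrivial) (l : List (Set E)) :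
    ∃ l₁ l₂, Disjoint (kept τ (l ++ l₁)) (kept τ (l ++ l₂)) := by
  classical
  by_contra hcon
  push Not at hcon
  have hout : ∀ (C : ℕ → Set E) (n : ℕ), (kept τ ((List.range n).map C)).Nonempty := fun C n =>
    (hτ C).nonempty.mono (outcome_subset_kept τ C n)
  let M : Set E → Prop := fun Y => ∃ t, kept τ (l ++ t) ⊆ Y
  have hmeet : ∀ t t', (kept τ (l ++ t) ∩ kept τ (l ++ t')).Nonempty := fun t t' =>
    Set.not_disjoint_iff_nonempty_inter.mp (hcon t t')
  have hM1 : ∀ Y Z, M Y → M Z → (Y ∩ Z).Nonempty := by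
    rintro Y Z ⟨t, ht⟩ ⟨t', ht'⟩
    exact (hmeet t t').mono (Set.inter_subset_inter ht ht')
  have hM2 : ∀ t Y, kept τ (l ++ t ++ [Y]) ⊆ Y ∨ M Yᶜ := by
    intro t Y
    rcases side_cases Y (τ (l ++ t ++ [Y])) with h | h
    · exact Or.inl ((kept_snoc τ _ Y).trans h)
    · exact Or.inr ⟨t ++ [Y], by rw [← List.append_assoc]; exact (kept_snoc τ _ Y).trans h⟩
  have hM3 : ∀ Y, M Y ∨ M Yᶜ := by
    intro Y
    rcases hM2 [] Y with h | h
    · exact Or.inl ⟨[Y], by simpa using h⟩
    · exact Or.inr h
  have hM4 : ∀ Y, M Y → ∀ t, kept τ (l ++ t ++ [Y]) ⊆ Y := by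
    intro Y hY t
    rcases hM2 t Y with h | h
    · exact h
    · obtain ⟨x, hx⟩ := hM1 _ _ hY h
      exact absurd hx.1 hx.2
  have hM5 : ∀ C : ℕ → Set E, (∀ n, M (C n)) → M (⋂ n, C n) := by
    intro C hC
    rcases hM3 (⋂ n, C n) with h | h
    · exact h
    · exfalso
      -- play l, then the complement, then the sets C n
      let D : ℕ → Set E := fun n => if h : n < l.length then l[n] else
        if n = l.length then (⋂ n, C n)ᶜ else C (n - l.length - 1)
      have hD0 : (List.range l.length).map D = l := by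
        refine List.ext_getElem (by simp) (fun i h1 h2 => ?_)
        simp [D, h2]
      have hD1 : D l.length = (⋂ n, C n)ᶜ := by simp [D]
      have hD2 : ∀ n, D (l.length + 1 + n) = C n := by
        intro n
        have h1 : ¬ (l.length + 1 + n < l.length) := by omega
        have h2 : ¬ (l.length + 1 + n = l.length) := by omega
        have h3 : l.length + 1 + n - l.length - 1 = n := by omega
        simp only [D, dif_neg h1, if_neg h2, h3]
      have hD3 : ∀ n, ∃ t, (List.range (l.length + n)).map D = l ++ t := by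
        intro n
        refine ⟨(List.range n).map (fun i => D (l.length + i)), ?_⟩
        rw [List.range_add, List.map_append, hD0, List.map_map]
        rfl
      obtain ⟨x, hx⟩ := (hτ D).nonempty
      have hk : ∀ n, x ∈ kept τ ((List.range n).map D) := fun n => outcome_subset_kept τ D n hx
      have hmem : ∀ n, M (D (l.length + n)) → x ∈ D (l.length + n) := by
        intro n hn
        obtain ⟨t, ht⟩ := hD3 n
        have h1 := hk (l.length + n + 1)
        rw [List.range_succ, List.map_append, List.map_singleton, ht] at h1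
        exact hM4 _ hn t h1
      have h0 : x ∈ (⋂ n, C n)ᶜ := by
        rw [← hD1]
        exact hmem 0 (by simpa [hD1] using h)
      refine h0 (Set.mem_iInter.mpr (fun n => ?_))
      have h1 := hmem (1 + n)
      rw [← add_assoc, hD2] at h1
      exact h1 (hC n)
  have hM6 : ∀ Y Z, M Y → Y ⊆ Z → M Z := by
    rintro Y Z ⟨t, ht⟩ hYZ
    exact ⟨t, ht.trans hYZ⟩
  have hM7 : ∀ Y Z, M Y → M Z → M (Y ∩ Z) := by
    rintro Y Z ⟨t, ht⟩ hZ
    refine ⟨t ++ [Z], ?_⟩
    rw [← List.append_assoc]
    exact Set.subset_inter ((kept_append τ _ _).trans ht) (hM4 Z hZ t)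
  let F : Filter E :=
    { sets := {Y | M Y}
      univ_sets := ⟨[], Set.subset_univ _⟩
      sets_of_superset := fun {Y Z} hY hYZ => hM6 Y Z hY hYZ
      inter_sets := fun {Y Z} hY hZ => hM7 Y Z hY hZ }
  have hFmem : ∀ Y, Y ∈ F ↔ M Y := fun Y => Iff.rfl
  let U : Ultrafilter E := Ultrafilter.ofComplNotMemIff F (by
    intro Y
    rw [hFmem, hFmem]
    constructor
    · intro h
      exact (hM3 Y).resolve_right h
    · intro h h'
      obtain ⟨x, hx⟩ := hM1 _ _ h h'
      exact hx.2 hx.1)
  have hU : ∀ Y, Y ∈ (U : Filter E) ↔ M Y := fun Y => Iff.rfl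
  obtain ⟨x, hx⟩ := hE U ⟨by
    intro A hA hA'
    rcases A.eq_empty_or_nonempty with h | h
    · subst h
      simp
    · obtain ⟨C, rfl⟩ := hA.exists_eq_range h
      rw [Set.sInter_range]
      exact (hU _).mpr (hM5 C (fun n => (hU _).mp (hA' _ ⟨n, rfl⟩)))⟩
  have h1 : M {x} := by
    rw [← hU, hx]
    simp
  obtain ⟨t, ht⟩ := h1
  -- the play l ++ t followed by anything
  let D : ℕ → Set E := fun n => if h : n < (l ++ t).length then (l ++ t)[n] else ∅
  have hD0 : (List.range (l ++ t).length).map D = l ++ t := by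
    refine List.ext_getElem (by simp) (fun i h1 h2 => ?_)
    simp only [List.getElem_map, List.getElem_range, D, dif_pos h2]
  obtain ⟨y, hy, z, hz, hyz⟩ := hτ D
  have h2 := outcome_subset_kept τ D (l ++ t).length
  rw [hD0] at h2
  exact hyz ((ht (h2 hy)).trans (ht (h2 hz)).symm)

end Ulam


/-! ### Histories -/

lemma hist_succ (m : ℕ → Move E) (n : ℕ) : hist m (n + 1) = hist m n ++ [m n] := by
  simp [hist, List.range_succ]

lemma legalHistory_nil : LegalHistory ([] : List (Move E)) := by
  intro i hi
  simp at hi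

lemma legalHistory_snoc {h : List (Move E)} {m : Move E} (hh : LegalHistory h)
    (hm : LegalMove h m) : LegalHistory (h ++ [m]) := by
  intro i hi
  rcases Nat.lt_or_ge i h.length with h1 | h1
  · have := hh i h1
    rw [List.take_append_of_le_length h1.le, List.getElem_append_left h1]
    exact this
  · have h2 : i = h.length := by
      simp at hi
      omega
    subst h2
    simpa using hm

/-- The history generated by a rule `next` for the successive moves. -/
def run (next : ℕ → List (Move E) → Move E) : ℕ → List (Move E)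
  | 0 => []
  | n + 1 => run next n ++ [next n (run next n)]

lemma run_length (next : ℕ → List (Move E) → Move E) (n : ℕ) : (run next n).length = n := by
  induction n with
  | zero => rfl
  | succ n ih => simp [run, ih]

lemma hist_run (next : ℕ → List (Move E) → Move E) (n : ℕ) :
    hist (fun k => next k (run next k)) n = run next n := by
  induction n with
  | zero => rfl
  | succ n ih => rw [hist_succ, ih]; rfl

lemma run_legal (next : ℕ → List (Move E) → Move E)
    (hn : ∀ n h, LegalHistory h → h.length = n → LegalMove h (next n h)) (n : ℕ) :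
    LegalHistory (run next n) := by
  induction n with
  | zero => exact legalHistory_nil
  | succ n ih => exact legalHistory_snoc ih (hn n _ ih (run_length next n))

lemma run_isPlay (next : ℕ → List (Move E) → Move E)
    (hn : ∀ n h, LegalHistory h → h.length = n → LegalMove h (next n h)) :
    IsPlay (fun k => next k (run next k)) := by
  intro n
  rw [hist_run]
  exact hn n _ (run_legal next hn n) (run_length next n)

/-- The default move. -/
def dflt : Move E := ⟨Set.univ, Set.univ, ∅⟩

/-- last move of a history -/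
def last (h : List (Move E)) : Move E := h.getLast?.getD dflt

@[simp] lemma last_snoc (h : List (Move E)) (m : Move E) : last (h ++ [m]) = m := by
  simp [last]

/-- a piece of a move -/
def piece (p : Move E) (c : Bool) : Set E := if c then p.left else p.right

/-- The move: choose piece `c` of the last move and split it by the set `S`. -/
def cutMove (c : Bool) (S : Set E) (h : List (Move E)) : Move E :=
  ⟨piece (last h) c, piece (last h) c ∩ S, piece (last h) c \ S⟩

lemma cutMove_legal (c : Bool) (S : Set E) (h : List (Move E)) (hh : h ≠ []) :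
    LegalMove h (cutMove c S h) := by
  refine ⟨?_, ?_, ?_, ?_⟩
  · intro p hp
    have : last h = p := by simp [last, hp]
    simp only [cutMove, this, piece]
    cases c <;> simp
  · intro h0
    exact absurd h0 hh
  · simp only [cutMove]
    exact Set.disjoint_left.mpr (fun x hx hx' => hx'.2 hx.2)
  · simp only [cutMove]
    exact Set.inter_union_sdiff _ _

/-! ### Player A has no winning strategy on an uncountable set -/

section PartA

variable (f : E → ℕ → Bool) (σ : List (Move E) → Move E)

/-- B's answer coded by `a`: pick the piece `a.1` and cut along coordinate `a.2` of `f`. -/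
def ansB (a : Bool × ℕ) (h : List (Move E)) : Move E := cutMove a.1 {x | f x a.2 = true} h

/-- Position after A's move when B's previous answers (most recent first) are coded by `l`. -/
def posA : List (Bool × ℕ) → List (Move E)
  | [] => [σ []]
  | a :: l => (posA l ++ [ansB f a (posA l)]) ++ [σ (posA l ++ [ansB f a (posA l)])]

lemma posA_ne_nil (l : List (Bool × ℕ)) : posA f σ l ≠ [] := by
  cases l <;> simp [posA]

lemma posA_length (l : List (Bool × ℕ)) : (posA f σ l).length = 2 * l.length + 1 := by
  induction l with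
  | nil => rfl
  | cons a l ih => simp [posA, ih]; ring

lemma posA_legal (hσ : ∀ h, LegalHistory h → Even h.length → LegalMove h (σ h))
    (l : List (Bool × ℕ)) : LegalHistory (posA f σ l) := by
  induction l with
  | nil =>
    have := legalHistory_snoc legalHistory_nil (hσ [] legalHistory_nil (by simp))
    simpa [posA] using this
  | cons a l ih =>
    have h1 : LegalHistory (posA f σ l ++ [ansB f a (posA f σ l)]) :=
      legalHistory_snoc ih (cutMove_legal _ _ _ (posA_ne_nil f σ l))
    refine legalHistory_snoc h1 (hσ _ h1 ?_)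
    rw [List.length_append, posA_length]
    exact ⟨l.length + 1, by simp; ring⟩

/-- points of the piece `c` that are lost whatever coordinate B uses -/
def stuck (l : List (Bool × ℕ)) (c : Bool) : Set E :=
  {x | x ∈ piece (last (posA f σ l)) c ∧ ∀ k, x ∉ (last (posA f σ ((c, k) :: l))).chosen}

lemma stuck_image (hσ : ∀ h, LegalHistory h → Even h.length → LegalMove h (σ h))
    (l : List (Bool × ℕ)) (c : Bool) : (f '' stuck f σ l c).Subsingleton := by
  rintro _ ⟨x, hx, rfl⟩ _ ⟨y, hy, rfl⟩
  funext k
  set h := posA f σ l with hh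
  set b := ansB f (c, k) h with hb
  have h1 : LegalHistory (h ++ [b]) :=
    legalHistory_snoc (posA_legal f σ hσ l) (cutMove_legal _ _ _ (posA_ne_nil f σ l))
  have hleg : LegalMove (h ++ [b]) (σ (h ++ [b])) := by
    refine hσ _ h1 ?_
    rw [List.length_append, hh, posA_length]
    exact ⟨l.length + 1, by simp; ring⟩
  have hch := hleg.1 b (by simp)
  have hlast : last (posA f σ ((c, k) :: l)) = σ (h ++ [b]) := by
    rw [posA, ← hh, ← hb, last_snoc]
  have hx2 := hx.2 k
  have hy2 := hy.2 k
  rw [hlast] at hx2 hy2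
  have hx1 : x ∈ piece (last h) c := hx.1
  have hy1 : y ∈ piece (last h) c := hy.1
  rcases hch with hch | hch
  · rw [hch] at hx2 hy2
    have e1 : f x k ≠ true := fun e => hx2 ⟨hx1, e⟩
    have e2 : f y k ≠ true := fun e => hy2 ⟨hy1, e⟩
    rw [Bool.eq_false_iff.mpr e1, Bool.eq_false_iff.mpr e2]
  · rw [hch] at hx2 hy2
    have e1 : f x k = true := by
      by_contra e
      exact hx2 ⟨hx1, e⟩
    have e2 : f y k = true := by
      by_contra e
      exact hy2 ⟨hy1, e⟩
    rw [e1, e2]

lemma exists_unstuck (hσ : ∀ h, LegalHistory h → Even h.length → LegalMove h (σ h))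
    (hf : ¬ (Set.range f).Countable) : ∃ x, ∀ l c, x ∉ stuck f σ l c := by
  by_contra hcon
  push Not at hcon
  apply hf
  have h1 : Set.range f ⊆ ⋃ (q : List (Bool × ℕ) × Bool), f '' stuck f σ q.1 q.2 := by
    rintro _ ⟨x, rfl⟩
    obtain ⟨l, c, hx⟩ := hcon x
    exact Set.mem_iUnion.mpr ⟨(l, c), Set.mem_image_of_mem f hx⟩
  have h2 : (⋃ (q : List (Bool × ℕ) × Bool), f '' stuck f σ q.1 q.2).Countable :=
    Set.countable_iUnion (fun q => (stuck_image f σ hσ q.1 q.2).countable)
  exact h2.mono h1

theorem notA_aux (hf : ¬ (Set.range f).Countable)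
    (hσ : ∀ h, LegalHistory h → Even h.length → LegalMove h (σ h))
    (hwin : ∀ m : ℕ → Move E, IsPlay m → (∀ n, Even n → m n = σ (hist m n)) → AWins m) :
    False := by
  obtain ⟨x, hx⟩ := exists_unstuck f σ hσ hf
  -- the step
  have step : ∀ l : {l : List (Bool × ℕ) // x ∈ (last (posA f σ l)).chosen},
      ∃ a : Bool × ℕ, x ∈ (last (posA f σ (a :: l.1))).chosen := by
    rintro ⟨l, hl⟩
    have hleg : LegalHistory (posA f σ l) := posA_legal f σ hσ l
    have hlen := posA_length f σ l
    -- the last move is legal, so chosen = left ∪ right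
    have hsplit : (last (posA f σ l)).left ∪ (last (posA f σ l)).right
        = (last (posA f σ l)).chosen := by
      have h1 := hleg (2 * l.length) (by omega)
      have h2 : (posA f σ l)[2 * l.length]'(by omega) = last (posA f σ l) := by
        unfold last
        rw [List.getLast?_eq_getElem?]
        simp [hlen]
      rw [h2] at h1
      exact h1.2.2.2
    rw [← hsplit] at hl
    rcases hl with hl | hl
    · have := hx l true
      simp only [stuck, Set.mem_ofPred_eq, not_and, not_forall, not_not] at this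
      obtain ⟨k, hk⟩ := this (by simpa [piece] using hl)
      exact ⟨(true, k), hk⟩
    · have := hx l false
      simp only [stuck, Set.mem_ofPred_eq, not_and, not_forall, not_not] at this
      obtain ⟨k, hk⟩ := this (by simpa [piece] using hl)
      exact ⟨(false, k), hk⟩
  choose nxt hnxt using step
  have hx0 : x ∈ (last (posA f σ [])).chosen := by
    have h1 := (hσ [] legalHistory_nil (by simp)).2.1 rfl
    simp [posA, last, h1]
  let seq : ℕ → {l : List (Bool × ℕ) // x ∈ (last (posA f σ l)).chosen} := fun n =>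
    Nat.rec ⟨[], hx0⟩ (fun _ l => ⟨nxt l :: l.1, hnxt l⟩) n
  have seq_succ : ∀ n, (seq (n + 1)).1 = nxt (seq n) :: (seq n).1 := fun n => rfl
  have seq_len : ∀ n, (seq n).1.length = n := by
    intro n
    induction n with
    | zero => rfl
    | succ n ih => rw [seq_succ]; simp [ih]
  let next : ℕ → List (Move E) → Move E := fun n h =>
    if Even n then σ h else ansB f (nxt (seq (n / 2))) h
  have hrun : ∀ n, run next (2 * n + 1) = posA f σ (seq n).1 := by
    intro n
    induction n with
    | zero => simp [run, next, posA, seq]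
    | succ n ih =>
      have e : 2 * (n + 1) + 1 = (2 * n + 1) + 1 + 1 := by ring
      have o1 : ¬ Even (2 * n + 1) := by simp
      have o2 : Even (2 * n + 1 + 1) := ⟨n + 1, by ring⟩
      have o3 : (2 * n + 1) / 2 = n := by omega
      rw [e, run, run, ih, seq_succ]
      simp only [next, if_neg o1, if_pos o2, o3, posA]
  have hnleg : ∀ n h, LegalHistory h → h.length = n → LegalMove h (next n h) := by
    intro n h hh hlen
    by_cases hn : Even n
    · simp only [next, if_pos hn]
      exact hσ h hh (hlen ▸ hn)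
    · simp only [next, if_neg hn]
      refine cutMove_legal _ _ _ ?_
      rintro rfl
      simp at hlen
      exact hn (hlen ▸ Even.zero)
  have hplay := run_isPlay next hnleg
  have hfollow : ∀ n, Even n →
      (fun k => next k (run next k)) n = σ (hist (fun k => next k (run next k)) n) := by
    intro n hn
    rw [hist_run]
    simp only [next, if_pos hn]
  have hA := hwin _ hplay hfollow
  -- x is in every even chosen set
  have hxe : ∀ n, x ∈ (next (2 * n) (run next (2 * n))).chosen := by
    intro n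
    have h1 := hrun n
    have h2 : run next (2 * n + 1) = run next (2 * n) ++ [next (2 * n) (run next (2 * n))] := rfl
    have h3 := (seq n).2
    rw [← h1, h2, last_snoc] at h3
    exact h3
  have hmono : ∀ n, (next (n + 1) (run next (n + 1))).chosen ⊆ (next n (run next n)).chosen := by
    intro n
    have h1 := hplay (n + 1)
    have h2 := hplay n
    rw [hist_run] at h1 h2
    have h3 := h1.1 (next n (run next n)) (by simp [run])
    have h4 := h2.2.2.2
    simp only at h4
    rcases h3 with h3 | h3
    · simp only at h3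
      rw [h3, ← h4]; exact Set.subset_union_left
    · simp only at h3
      rw [h3, ← h4]; exact Set.subset_union_right
  have : x ∈ (⋂ n : ℕ, ((fun k => next k (run next k)) (n + 1)).chosen) := by
    refine Set.mem_iInter.mpr (fun n => ?_)
    rcases Nat.even_or_odd (n + 1) with ⟨k, hk⟩ | ⟨k, hk⟩
    · have := hxe k
      have e : n + 1 = 2 * k := by omega
      simp only [e]
      exact this
    · have h1 := hxe (k + 1)
      have e : 2 * (k + 1) = (n + 1) + 1 := by omega
      rw [e] at h1
      exact hmono (n + 1) h1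
  unfold AWins at hA
  rw [hA] at this
  exact this

end PartA

lemma exists_uncountable_range (E : Type u) [Uncountable E] :
    ∃ f : E → ℕ → Bool, ¬ (Set.range f).Countable := by
  have h1 : ℵ₁ ≤ #E := by
    rw [← Cardinal.succ_aleph0]
    exact Order.succ_le_of_lt (Cardinal.aleph0_lt_mk)
  obtain ⟨s, hs⟩ := Cardinal.le_mk_iff_exists_set.mp h1
  have h2 : #s ≤ #(ULift.{u} (ℕ → Bool)) := by
    rw [hs]
    have e : #(ULift.{u} (ℕ → Bool)) = 𝔠 := by simp
    rw [e]
    exact Cardinal.aleph_one_le_continuum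
  obtain ⟨g⟩ := h2
  classical
  refine ⟨fun x => if hx : x ∈ s then (g ⟨x, hx⟩).down else fun _ => false, fun hc => ?_⟩
  have hinj : Function.Injective (fun x : s => (g x).down) := by
    intro a b hab
    exact g.injective (ULift.down_injective hab)
  have hsub : Set.range (fun x : s => (g x).down) ⊆
      Set.range (fun x : E => if hx : x ∈ s then (g ⟨x, hx⟩).down else fun _ => false) := by
    rintro _ ⟨x, rfl⟩
    refine ⟨x.1, ?_⟩
    simp
  have hc2 := hc.mono hsub
  have hcs : Countable s := by
    have : Countable (Set.range (fun x : s => (g x).down)) := hc2.to_subtype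
    exact (Set.rangeFactorization_injective.mpr hinj).countable
  have : #s ≤ ℵ₀ := Cardinal.mk_le_aleph0_iff.mpr hcs
  rw [hs] at this
  exact absurd this (not_le.mpr Cardinal.aleph0_lt_aleph_one)

theorem not_hasWinningStrategyA (E : Type u) [Uncountable E] : ¬ HasWinningStrategyA E := by
  rintro ⟨σ, hσ, hwin⟩
  obtain ⟨f, hf⟩ := exists_uncountable_range E
  exact notA_aux f σ hf hσ hwin


/-! ### From a winning strategy of B to a system -/

section FromB

variable (τ : List (Move E) → Move E)

/-- A's first move -/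
def firstA : Move E := ⟨Set.univ, Set.univ, ∅⟩

lemma firstA_legal : LegalMove [] (firstA : Move E) := by
  refine ⟨by simp, fun _ => rfl, ?_, ?_⟩
  · simp [firstA]
  · simp [firstA]

/-- two more moves: A picks piece `a.1` and cuts it by `a.2`, then B answers -/
def stepB (h : List (Move E)) (a : Bool × Set E) : List (Move E) :=
  (h ++ [cutMove a.1 a.2 h]) ++ [τ (h ++ [cutMove a.1 a.2 h])]

/-- Position after B's move when A's choices are coded by `l` (oldest first). -/
def posB (l : List (Bool × Set E)) : List (Move E) :=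
  l.foldl (stepB τ) ([firstA] ++ [τ [firstA]])

lemma posB_snoc (l : List (Bool × Set E)) (a : Bool × Set E) :
    posB τ (l ++ [a]) = stepB τ (posB τ l) a := by
  simp [posB]

lemma posB_length (l : List (Bool × Set E)) : (posB τ l).length = 2 * l.length + 2 := by
  induction l using List.reverseRecOn with
  | nil => simp [posB]
  | append_singleton l a ih => rw [posB_snoc]; simp [stepB, ih]; ring

lemma posB_ne_nil (l : List (Bool × Set E)) : posB τ l ≠ [] := by
  intro h
  have := posB_length τ l
  rw [h] at this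
  simp at this

variable (hτ : ∀ h, LegalHistory h → Odd h.length → LegalMove h (τ h))

include hτ in
lemma posB_legal (l : List (Bool × Set E)) : LegalHistory (posB τ l) := by
  induction l using List.reverseRecOn with
  | nil =>
    have h1 : LegalHistory [(firstA : Move E)] := by
      have := legalHistory_snoc legalHistory_nil (firstA_legal (E := E))
      simpa using this
    exact legalHistory_snoc h1 (hτ _ h1 (by simp))
  | append_singleton l a ih =>
    rw [posB_snoc]
    have h1 : LegalHistory (posB τ l ++ [cutMove a.1 a.2 (posB τ l)]) :=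
      legalHistory_snoc ih (cutMove_legal _ _ _ (posB_ne_nil τ l))
    refine legalHistory_snoc h1 (hτ _ h1 ?_)
    rw [List.length_append, posB_length]
    exact ⟨l.length + 1, by simp; ring⟩

lemma last_legal {h : List (Move E)} (hh : LegalHistory h) (h0 : h ≠ []) :
    LegalMove h.dropLast (last h) := by
  have hpos := List.length_pos_iff.mpr h0
  have h1 := hh (h.length - 1) (by omega)
  have h2 : h[h.length - 1]'(by omega) = last h := by
    unfold last
    rw [List.getLast?_eq_getElem?]
    simp [hpos]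
  rw [h2] at h1
  rwa [List.dropLast_eq_take]

lemma piece_subset {m : Move E} {h : List (Move E)} (hm : LegalMove h m) (c : Bool) :
    piece m c ⊆ m.chosen := by
  have := hm.2.2.2
  cases c
  · rw [← this]; exact Set.subset_union_right
  · rw [← this]; exact Set.subset_union_left

include hτ in
lemma posB_chosen (l : List (Bool × Set E)) (a : Bool × Set E) :
    (last (posB τ (l ++ [a]))).chosen = piece (last (posB τ l)) a.1 ∩ a.2 ∨
    (last (posB τ (l ++ [a]))).chosen = piece (last (posB τ l)) a.1 \ a.2 := by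
  have h1 : LegalHistory (posB τ l ++ [cutMove a.1 a.2 (posB τ l)]) :=
    legalHistory_snoc (posB_legal τ hτ l) (cutMove_legal _ _ _ (posB_ne_nil τ l))
  have h2 := hτ _ h1 (by
    rw [List.length_append, posB_length]
    exact ⟨l.length + 1, by simp; ring⟩)
  rw [posB_snoc]
  simp only [stepB, last_snoc]
  have h3 := h2.1 (cutMove a.1 a.2 (posB τ l)) (by simp)
  exact h3

include hτ in
lemma posB_chosen_subset (l : List (Bool × Set E)) (a : Bool × Set E) :
    (last (posB τ (l ++ [a]))).chosen ⊆ piece (last (posB τ l)) a.1 := by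
  rcases posB_chosen τ hτ l a with h | h
  · rw [h]; exact Set.inter_subset_left
  · rw [h]; exact Set.sdiff_subset

include hτ in
lemma posB_mono (l t : List (Bool × Set E)) :
    (last (posB τ (l ++ t))).chosen ⊆ (last (posB τ l)).chosen := by
  induction t using List.reverseRecOn with
  | nil => simp
  | append_singleton t a ih =>
    rw [← List.append_assoc]
    refine (posB_chosen_subset τ hτ _ a).trans (Set.Subset.trans ?_ ih)
    exact piece_subset (last_legal (posB_legal τ hτ _) (posB_ne_nil τ _)) _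

variable (hwin : ∀ m : ℕ → Move E, IsPlay m → (∀ n, Odd n → m n = τ (hist m n)) → ¬ AWins m)

include hτ hwin in
lemma posB_win (a : ℕ → Bool × Set E) :
    ∃ x, ∀ n, x ∈ (last (posB τ ((List.range n).map a))).chosen := by
  classical
  let next : ℕ → List (Move E) → Move E := fun n h =>
    if Odd n then τ h else if n = 0 then firstA else
      cutMove (a (n / 2 - 1)).1 (a (n / 2 - 1)).2 h
  have hrun : ∀ n, run next (2 * n + 2) = posB τ ((List.range n).map a) := by
    intro n
    induction n with
    | zero => simp [run, next, posB]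
    | succ n ih =>
      have e : 2 * (n + 1) + 2 = (2 * n + 2) + 1 + 1 := by ring
      have o1 : ¬ Odd (2 * n + 2) := by
        rw [Nat.not_odd_iff_even]; exact ⟨n + 1, by ring⟩
      have o2 : Odd (2 * n + 2 + 1) := ⟨n + 1, by ring⟩
      have o3 : (2 * n + 2) / 2 - 1 = n := by omega
      have o4 : ¬ (2 * n + 2 = 0) := by omega
      rw [e, run, run, ih, List.range_succ, List.map_append, List.map_singleton, posB_snoc]
      simp only [next, if_neg o1, if_pos o2, if_neg o4, o3, stepB]
  have hnleg : ∀ n h, LegalHistory h → h.length = n → LegalMove h (next n h) := by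
    intro n h hh hlen
    by_cases hn : Odd n
    · simp only [next, if_pos hn]
      exact hτ h hh (hlen ▸ hn)
    · simp only [next, if_neg hn]
      by_cases h0 : n = 0
      · rw [if_pos h0]
        subst h0
        rw [List.length_eq_zero_iff.mp hlen]
        exact firstA_legal
      · rw [if_neg h0]
        refine cutMove_legal _ _ _ ?_
        rintro rfl
        simp at hlen
        exact h0 hlen.symm
  have hplay := run_isPlay next hnleg
  have hfollow : ∀ n, Odd n →
      (fun k => next k (run next k)) n = τ (hist (fun k => next k (run next k)) n) := by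
    intro n hn
    rw [hist_run]
    simp only [next, if_pos hn]
  have := hwin _ hplay hfollow
  unfold AWins at this
  rw [← Ne, ← Set.nonempty_iff_ne_empty] at this
  obtain ⟨x, hx⟩ := this
  refine ⟨x, fun n => ?_⟩
  have h1 := Set.mem_iInter.mp hx (2 * n)
  have h2 : run next (2 * n + 2) =
      run next (2 * n + 1) ++ [next (2 * n + 1) (run next (2 * n + 1))] := rfl
  rw [← hrun, h2, last_snoc]
  exact h1

/-- The system of positions of a winning strategy of B. -/
def sysOfB (hτ : ∀ h, LegalHistory h → Odd h.length → LegalMove h (τ h))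
    (hwin : ∀ m : ℕ → Move E, IsPlay m → (∀ n, Odd n → m n = τ (hist m n)) → ¬ AWins m) :
    Sys E where
  P := List (Bool × Set E)
  root := []
  r := fun l l' => ∃ t, t ≠ [] ∧ l' = l ++ t
  X := fun l => (last (posB τ l)).chosen
  trans := by
    rintro p q s ⟨t, ht, rfl⟩ ⟨t', -, rfl⟩
    exact ⟨t ++ t', by simp [ht], by simp⟩
  mono := by
    rintro p q ⟨t, -, rfl⟩
    exact posB_mono τ hτ p t
  dec := fun p Y => ⟨p ++ [(true, Y)], ⟨[(true, Y)], by simp, rfl⟩, by
    rcases posB_chosen τ hτ p (true, Y) with h | h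
    · left; rw [h]; exact Set.inter_subset_right
    · right; rw [h]; exact fun x hx => hx.2⟩
  split := fun p => by
    refine ⟨p ++ [(true, ∅)], p ++ [(false, ∅)], ⟨_, by simp, rfl⟩, ⟨_, by simp, rfl⟩, ?_⟩
    have h1 := (last_legal (posB_legal τ hτ p) (posB_ne_nil τ p)).2.2.1
    exact h1.mono (posB_chosen_subset τ hτ p (true, ∅)) (posB_chosen_subset τ hτ p (false, ∅))
  win := by
    intro c hc
    obtain ⟨a, ha⟩ := exists_seq c hc
    obtain ⟨x, hx⟩ := posB_win τ hτ hwin a
    exact ⟨x, fun n => by rw [ha n]; exact hx _⟩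

end FromB

theorem exists_sys (h : HasWinningStrategyB E) : Nonempty (Sys E) := by
  obtain ⟨τ, hτ, hwin⟩ := h
  exact ⟨sysOfB τ hτ hwin⟩

/-! ### From a system to a winning strategy of B -/

section ToB

variable (S : Sys E)

/-- the extension deciding `Y` -/
noncomputable def decP (p : S.P) (Y : Set E) : S.P := (S.dec p Y).choose
/-- first half of a splitting -/
noncomputable def leftP (p : S.P) : S.P := (S.split p).choose
/-- second half of a splitting -/
noncomputable def rightP (p : S.P) : S.P := (S.split p).choose_spec.choose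

lemma decP_r (p : S.P) (Y : Set E) : S.r p (decP S p Y) := (S.dec p Y).choose_spec.1
lemma decP_spec (p : S.P) (Y : Set E) : S.X (decP S p Y) ⊆ Y ∨ S.X (decP S p Y) ⊆ Yᶜ :=
  (S.dec p Y).choose_spec.2
lemma leftP_r (p : S.P) : S.r p (leftP S p) := (S.split p).choose_spec.choose_spec.1
lemma rightP_r (p : S.P) : S.r p (rightP S p) := (S.split p).choose_spec.choose_spec.2.1
lemma leftP_rightP (p : S.P) : Disjoint (S.X (leftP S p)) (S.X (rightP S p)) :=
  (S.split p).choose_spec.choose_spec.2.2

open Classical in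
/-- the position that A has chosen -/
noncomputable def curP (s : S.P × S.P) (a : Move E) : S.P :=
  if a.chosen = S.X s.1 then s.1 else s.2

/-- the position after B has decided A's splitting -/
noncomputable def newP (s : S.P × S.P) (a : Move E) : S.P := decP S (curP S s a) a.left

open Classical in
/-- the answer of B -/
noncomputable def outB (s : S.P × S.P) (a : Move E) : Move E :=
  ⟨if S.X (newP S s a) ⊆ a.left then a.left else a.right, S.X (leftP S (newP S s a)),
    (if S.X (newP S s a) ⊆ a.left then a.left else a.right) \ S.X (leftP S (newP S s a))⟩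

/-- the new state -/
noncomputable def updB (s : S.P × S.P) (a : Move E) : S.P × S.P :=
  (leftP S (newP S s a), rightP S (newP S s a))

/-- the machine of B -/
noncomputable def mach : S.P × S.P → List (Move E) → Move E
  | _, [] => dflt
  | s, [a] => outB S s a
  | s, a :: _ :: t => mach (updB S s a) t

/-- the states along a play -/
noncomputable def st (s : S.P × S.P) (m : ℕ → Move E) : ℕ → S.P × S.P
  | 0 => s
  | k + 1 => updB S (st s m k) (m (2 * k))

lemma st_shift (s : S.P × S.P) (m : ℕ → Move E) (k : ℕ) :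
    st S (updB S s (m 0)) (fun i => m (i + 2)) k = st S s m (k + 1) := by
  induction k with
  | zero => rfl
  | succ k ih =>
    rw [st, ih]
    show updB S (st S s m (k + 1)) (m (2 * k + 2)) = updB S (st S s m (k + 1)) (m (2 * (k + 1)))
    rfl

lemma hist_shift (m : ℕ → Move E) (n : ℕ) :
    hist m (n + 2) = m 0 :: m 1 :: hist (fun i => m (i + 2)) n := by
  induction n with
  | zero => rfl
  | succ n ih =>
    rw [hist_succ m (n + 2), ih, hist_succ (fun i => m (i + 2)) n]
    rfl

lemma mach_eq (s : S.P × S.P) (m : ℕ → Move E) (k : ℕ) :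
    mach S s (hist m (2 * k + 1)) = outB S (st S s m k) (m (2 * k)) := by
  induction k generalizing s m with
  | zero => rfl
  | succ k ih =>
    have e : 2 * (k + 1) + 1 = (2 * k + 1) + 2 := by ring
    rw [e, hist_shift, mach, ih, st_shift]
    rfl

open Classical in
/-- the strategy of B -/
noncomputable def stratB (h : List (Move E)) : Move E :=
  if LegalMove h (mach S (S.root, S.root) h) then mach S (S.root, S.root) h else
    cutMove true Set.univ h

lemma chosen_antitone {m : ℕ → Move E} (hm : IsPlay m) (n : ℕ) :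
    (m (n + 1)).chosen ⊆ (m n).chosen := by
  have h3 := (hm (n + 1)).1 (m n) (by rw [hist_succ]; simp)
  have h4 := (hm n).2.2.2
  rcases h3 with h3 | h3
  · rw [h3, ← h4]; exact Set.subset_union_left
  · rw [h3, ← h4]; exact Set.subset_union_right

include S in
theorem hasWinningStrategyB_of_sys : HasWinningStrategyB E := by
  classical
  refine ⟨stratB S, ?_, ?_⟩
  · intro h _ hodd
    unfold stratB
    split_ifs with h1
    · exact h1
    · refine cutMove_legal _ _ _ ?_
      rintro rfl
      simp at hodd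
  · intro m hm hfol
    let s : ℕ → S.P × S.P := st S (S.root, S.root) m
    have hs : ∀ k, s (k + 1) = updB S (s k) (m (2 * k)) := fun k => rfl
    -- the answer of B
    have hans : ∀ k, S.X (curP S (s k) (m (2 * k))) ⊆ (m (2 * k)).chosen →
        m (2 * k + 1) = outB S (s k) (m (2 * k)) ∧
        S.X (newP S (s k) (m (2 * k))) ⊆ (m (2 * k + 1)).chosen := by
      intro k hk
      have h0 : S.X (newP S (s k) (m (2 * k))) ⊆ (m (2 * k)).chosen :=
        (S.mono (decP_r S _ _)).trans hk
      have hlr := (hm (2 * k)).2.2.2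
      have hsub : S.X (newP S (s k) (m (2 * k))) ⊆ (outB S (s k) (m (2 * k))).chosen := by
        show _ ⊆ (if S.X (newP S (s k) (m (2 * k))) ⊆ (m (2 * k)).left then (m (2 * k)).left
          else (m (2 * k)).right)
        split_ifs with h1
        · exact h1
        · rcases decP_spec S (curP S (s k) (m (2 * k))) (m (2 * k)).left with h2 | h2
          · exact absurd h2 h1
          · intro x hx
            have h3 := h0 hx
            rw [← hlr] at h3
            exact h3.resolve_left (h2 hx)
      have hleg : LegalMove (hist m (2 * k + 1)) (outB S (s k) (m (2 * k))) := by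
        refine ⟨?_, ?_, ?_, ?_⟩
        · intro p hp
          rw [hist_succ] at hp
          simp only [List.getLast?_concat, Option.some.injEq] at hp
          subst hp
          by_cases h1 : S.X (newP S (s k) (m (2 * k))) ⊆ (m (2 * k)).left
          · exact Or.inl (if_pos h1)
          · exact Or.inr (if_neg h1)
        · intro h
          rw [hist_succ] at h
          simp at h
        · exact Set.disjoint_sdiff_right
        · exact Set.union_sdiff_cancel ((S.mono (leftP_r S _)).trans hsub)
      have heq : m (2 * k + 1) = outB S (s k) (m (2 * k)) := by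
        rw [hfol (2 * k + 1) ⟨k, rfl⟩]
        unfold stratB
        rw [mach_eq]
        exact if_pos hleg
      exact ⟨heq, by rw [heq]; exact hsub⟩
    have hinv : ∀ k, S.X (curP S (s k) (m (2 * k))) ⊆ (m (2 * k)).chosen ∧
        (∀ j, k = j + 1 → S.r (newP S (s j) (m (2 * j))) (curP S (s k) (m (2 * k)))) := by
      intro k
      induction k with
      | zero =>
        refine ⟨?_, fun j hj => by omega⟩
        rw [(hm 0).2.1 rfl]
        exact Set.subset_univ _
      | succ k ih =>
        obtain ⟨heq, hsub⟩ := hans k ih.1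
        have hch := (hm (2 * k + 2)).1 (m (2 * k + 1)) (by rw [hist_succ]; simp)
        have hl : (m (2 * k + 1)).left = S.X (leftP S (newP S (s k) (m (2 * k)))) := by
          rw [heq]; rfl
        have hr : (m (2 * k + 1)).right =
            (m (2 * k + 1)).chosen \ S.X (leftP S (newP S (s k) (m (2 * k)))) := by
          rw [heq]; rfl
        have hs1 : (s (k + 1)).1 = leftP S (newP S (s k) (m (2 * k))) := rfl
        have hs2 : (s (k + 1)).2 = rightP S (newP S (s k) (m (2 * k))) := rfl
        have e : 2 * (k + 1) = 2 * k + 2 := by ring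
        rw [e]
        by_cases hc : (m (2 * k + 2)).chosen = S.X (s (k + 1)).1
        · have hcur : curP S (s (k + 1)) (m (2 * k + 2)) = (s (k + 1)).1 := if_pos hc
          rw [hcur]
          refine ⟨hc.symm.subset, fun j hj => ?_⟩
          have : j = k := by omega
          subst this
          rw [hs1]
          exact leftP_r S _
        · have hcur : curP S (s (k + 1)) (m (2 * k + 2)) = (s (k + 1)).2 := if_neg hc
          rw [hcur]
          refine ⟨?_, fun j hj => ?_⟩
          · rcases hch with h | h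
            · exact absurd (h.trans (hl.trans (by rw [hs1]))) hc
            · rw [h, hr, hs2]
              intro x hx
              exact ⟨hsub (S.mono (rightP_r S _) hx),
                fun hx' => Set.disjoint_left.mp (leftP_rightP S _) hx' hx⟩
          · have : j = k := by omega
            subst this
            rw [hs2]
            exact rightP_r S _
    obtain ⟨x, hx⟩ := S.win (fun k => newP S (s k) (m (2 * k))) (fun k =>
      S.trans ((hinv (k + 1)).2 k rfl) (decP_r S _ _))
    have hodd : ∀ k, x ∈ (m (2 * k + 1)).chosen := fun k => (hans k (hinv k).1).2 (hx k)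
    intro hA
    unfold AWins at hA
    have : x ∈ (⋂ n : ℕ, (m (n + 1)).chosen) := by
      refine Set.mem_iInter.mpr (fun n => ?_)
      rcases Nat.even_or_odd (n + 1) with ⟨k, hk⟩ | ⟨k, hk⟩
      · have h1 := chosen_antitone hm (n + 1)
        refine h1 ?_
        have e : n + 1 + 1 = 2 * k + 1 := by omega
        rw [e]
        exact hodd k
      · rw [hk]
        exact hodd k
    rw [hA] at this
    exact this

end ToB


/-! ### Systems from larger sets and from ideals -/

/-- A system on `E` gives one on every set that is at least as large. -/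
def sysMap {F : Type u} (S : Sys E) (ι : E ↪ F) : Sys F where
  P := S.P
  root := S.root
  r := S.r
  X := fun p => ι '' S.X p
  trans := S.trans
  mono := fun h => Set.image_mono (S.mono h)
  dec := fun p Y => by
    obtain ⟨q, hq, h⟩ := S.dec p (ι ⁻¹' Y)
    refine ⟨q, hq, ?_⟩
    rcases h with h | h
    · left; rintro _ ⟨x, hx, rfl⟩; exact h hx
    · right; rintro _ ⟨x, hx, rfl⟩; exact h hx
  split := fun p => by
    obtain ⟨q, s, hq, hs, h⟩ := S.split p
    exact ⟨q, s, hq, hs, (Set.disjoint_image_iff ι.injective).mpr h⟩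
  win := by
    intro c hc
    obtain ⟨x, hx⟩ := S.win c hc
    exact ⟨ι x, fun n => ⟨x, hx n, rfl⟩⟩

/-- `E` carries a nowhere prime ideal `I` such that the sets outside `I` have a dense family `D`
closed under intersections of countable decreasing sequences. -/
def HasClosedDenseIdeal (E : Type u) : Prop :=
  ∃ I D : Set (Set E), ∅ ∈ I ∧ Set.univ ∉ I ∧ (∀ A ∈ I, ∀ B ⊆ A, B ∈ I) ∧
    (∀ A ∈ I, ∀ B ∈ I, A ∪ B ∈ I) ∧ (∀ A ∉ I, ∃ B ⊆ A, B ∉ I ∧ A \ B ∉ I) ∧
    (∀ B ∈ D, B ∉ I) ∧ (∀ A ∉ I, ∃ B ∈ D, B ⊆ A) ∧
    ∀ d : ℕ → Set E, (∀ n, d n ∈ D) → Antitone d → (⋂ n, d n) ∈ D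

theorem exists_sys_of_ideal (h : HasClosedDenseIdeal E) : Nonempty (Sys E) := by
  obtain ⟨I, D, h0, h1, h2, h3, h4, h5, h6, h7⟩ := h
  obtain ⟨B0, hB0, -⟩ := h6 _ h1
  exact ⟨{
    P := {B : Set E // B ∈ D}
    root := ⟨B0, hB0⟩
    r := fun p q => q.1 ⊆ p.1
    X := fun p => p.1
    trans := fun {p q s} h h' => h'.trans h
    mono := fun {p q} h => h
    dec := fun p Y => by
      have hp := h5 p.1 p.2
      by_cases hY : p.1 ∩ Y ∈ I
      · have hY' : p.1 \ Y ∉ I := by
          intro h'
          have := h3 _ hY _ h'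
          rw [Set.inter_union_sdiff] at this
          exact hp this
        obtain ⟨B, hB, hBY⟩ := h6 _ hY'
        exact ⟨⟨B, hB⟩, hBY.trans Set.sdiff_subset, Or.inr (fun x hx => (hBY hx).2)⟩
      · obtain ⟨B, hB, hBY⟩ := h6 _ hY
        exact ⟨⟨B, hB⟩, hBY.trans Set.inter_subset_left, Or.inl (fun x hx => (hBY hx).2)⟩
    split := fun p => by
      obtain ⟨B, hB, hB1, hB2⟩ := h4 _ (h5 p.1 p.2)
      obtain ⟨B', hB', hB'B⟩ := h6 _ hB1
      obtain ⟨B'', hB'', hB''B⟩ := h6 _ hB2
      exact ⟨⟨B', hB'⟩, ⟨B'', hB''⟩, hB'B.trans hB, hB''B.trans Set.sdiff_subset,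
        Set.disjoint_left.mpr (fun x hx hx' => (hB''B hx').2 (hB'B hx))⟩
    win := by
      intro c hc
      have := h7 (fun n => (c n).1) (fun n => (c n).2) (antitone_nat_of_succ_le hc)
      have hne : (⋂ n, (c n).1).Nonempty := by
        rw [Set.nonempty_iff_ne_empty]
        intro he
        rw [he] at this
        exact h5 _ this h0
      obtain ⟨x, hx⟩ := hne
      exact ⟨x, fun n => Set.mem_iInter.mp hx n⟩ }⟩

/-- Black has, in the cutting game on `E`, a strategy whose outcomes are all nonempty and which is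
nowhere decided: after every finite play White can steer to two disjoint sets. -/
def HasNowhereDecidedCutStrategy (E : Type u) : Prop :=
  ∃ τ : List (Set E) → Bool, (∀ C : ℕ → Set E, (outcome τ C).Nonempty) ∧
    ∀ l, ∃ l₁ l₂, Disjoint (kept τ (l ++ l₁)) (kept τ (l ++ l₂))

/-- Black has a winning strategy in the cut-and-choose game of Ulam on `E`: at least two points are
left at the end of every play. -/
def BlackWinsUlam (E : Type u) : Prop :=
  ∃ τ : List (Set E) → Bool, ∀ C : ℕ → Set E, (outcome τ C).Nontrivial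

/-- Every countably complete ultrafilter on `E` is principal. -/
def NoMeasure (E : Type u) : Prop :=
  ∀ U : Ultrafilter E, CountableInterFilter (U : Filter E) → ∃ x, U = pure x

theorem hasWinningStrategyB_iff : HasWinningStrategyB E ↔ HasNowhereDecidedCutStrategy E := by
  constructor
  · intro h
    obtain ⟨S⟩ := exists_sys h
    exact exists_cutStrat S
  · rintro ⟨τ, h1, h2⟩
    exact hasWinningStrategyB_of_sys (sysOfCut τ h1 h2)

theorem not_square_of_hasWinningStrategyB (h : HasWinningStrategyB E) :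
    ∃ κ : Cardinal.{u}, κ.IsRegular ∧ 𝔠 < κ ∧ κ ≤ #E ∧ ¬ SquarePrinciple κ := by
  obtain ⟨S⟩ := exists_sys h
  exact ⟨S.crit, S.isRegular_crit, S.continuum_lt_crit, S.crit_le, S.not_square⟩

theorem hasWinningStrategyB_mono {F : Type u} (hEF : #E ≤ #F) (h : HasWinningStrategyB E) :
    HasWinningStrategyB F := by
  obtain ⟨S⟩ := exists_sys h
  obtain ⟨ι⟩ := hEF
  exact hasWinningStrategyB_of_sys (sysMap S ι)

theorem hasWinningStrategyB_of_ulam (hE : NoMeasure E) (h : BlackWinsUlam E) :
    HasWinningStrategyB E := by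
  obtain ⟨τ, hτ⟩ := h
  exact hasWinningStrategyB_iff.mpr ⟨τ, fun C => (hτ C).nonempty,
    nowhereDecided_of_noMeasure hE τ hτ⟩

/-- Sanity check of the definitions: on a countable set A does have a winning strategy. -/
theorem hasWinningStrategyA_of_countable (E : Type u) [Countable E] : HasWinningStrategyA E := by
  classical
  rcases isEmpty_or_nonempty E with hE | hE
  · refine ⟨fun h => if h = [] then dflt else cutMove true Set.univ h, ?_, ?_⟩
    · intro h _ _
      by_cases h0 : h = []
      · subst h0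
        simp [LegalMove, dflt]
      · simp only [if_neg h0]
        exact cutMove_legal _ _ _ h0
    · intro m _ _
      exact Set.eq_empty_of_isEmpty _
  · obtain ⟨e, he⟩ := exists_surjective_nat E
    refine ⟨fun h => if h = [] then dflt else
      cutMove (if e (h.length / 2 - 1) ∈ (last h).left then false else true) Set.univ h, ?_, ?_⟩
    · intro h _ _
      by_cases h0 : h = []
      · subst h0
        simp [LegalMove, dflt]
      · simp only [if_neg h0]
        exact cutMove_legal _ _ _ h0
    · intro m hm hf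
      refine Set.eq_empty_iff_forall_notMem.mpr (fun x hx => ?_)
      obtain ⟨k, rfl⟩ := he x
      have h1 := Set.mem_iInter.mp hx (2 * k + 1)
      have h2 := hf (2 * k + 1 + 1) ⟨k + 1, by ring⟩
      have h3 : hist m (2 * k + 1 + 1) ≠ [] := by simp [hist]
      have h4 : (hist m (2 * k + 1 + 1)).length = 2 * k + 2 := by simp [hist]
      have h5 : last (hist m (2 * k + 1 + 1)) = m (2 * k + 1) := by
        rw [hist_succ, last_snoc]
      have h6 : (2 * k + 2) / 2 - 1 = k := by omega
      rw [h2] at h1
      simp only [if_neg h3, h4, h5, h6, cutMove] at h1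
      have h7 := (hm (2 * k + 1)).2.2.1
      by_cases hc : e k ∈ (m (2 * k + 1)).left
      · rw [if_pos hc] at h1
        exact Set.disjoint_left.mp h7 hc h1
      · rw [if_neg hc] at h1
        exact hc h1

/-- Who has a winning strategy in the set-splitting game on an uncountable set `E`. -/
theorem result (E : Type u) [Uncountable E] :
    ¬ HasWinningStrategyA E ∧
    (#E ≤ 𝔠 → ¬ HasWinningStrategyB E) ∧
    (HasWinningStrategyB E →
      ∃ κ : Cardinal.{u}, κ.IsRegular ∧ 𝔠 < κ ∧ κ ≤ #E ∧ ¬ SquarePrinciple κ) ∧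
    (HasWinningStrategyB E ↔ HasNowhereDecidedCutStrategy E) ∧
    (HasWinningStrategyB E → ∀ F : Type u, #E ≤ #F → HasWinningStrategyB F) ∧
    (HasClosedDenseIdeal E → HasWinningStrategyB E) ∧
    (NoMeasure E → BlackWinsUlam E → HasWinningStrategyB E) :=
  ⟨not_hasWinningStrategyA E,
    fun hE hB => by
      obtain ⟨κ, -, h1, h2, -⟩ := not_square_of_hasWinningStrategyB hB
      exact absurd (h1.trans_le (h2.trans hE)) (lt_irrefl _),
    not_square_of_hasWinningStrategyB, hasWinningStrategyB_iff,
    fun h _ hF => hasWinningStrategyB_mono hF h,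
    fun h => (exists_sys_of_ideal h).elim hasWinningStrategyB_of_sys,
    hasWinningStrategyB_of_ulam⟩

end Pool.Agent.Results.MP_c086f7_lc.Classification
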