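import Mathlib

open Cardinal Set

namespace Pool.Agent.Results.MP_c086f7_lc.Undetermined

universe u

/-- One move: the set the player picks, and the two pieces into which he then splits it. -/
structure Move (E : Type u) where
  chosen : Set E
  left : Set E
  right : Set E

variable {E : Type u}

/-- `m` is a legal move after the finite history `h` (list of the earlier moves, oldest first):
at move 0 the chosen set is all of `E`, later it is one of the two pieces made at the previous
move, and the chosen set is split into two disjoint sets whose union it is. -/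
def LegalMove (h : List (Move E)) (m : Move E) : Prop :=
  (∀ p : Move E, h.getLast? = some p → m.chosen = p.left ∨ m.chosen = p.right) ∧
  (h = [] → m.chosen = Set.univ) ∧
  Disjoint m.left m.right ∧ m.left ∪ m.right = m.chosen

/-- The list of the first `n` moves of the infinite sequence `m`. -/
def hist (m : ℕ → Move E) (n : ℕ) : List (Move E) := (List.range n).map m

/-- All moves of the sequence are legal. -/
def IsPlay (m : ℕ → Move E) : Prop := ∀ n, LegalMove (hist m n) (m n)

/-- A finite history all of whose moves are legal. -/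
def LegalHistory (h : List (Move E)) : Prop :=
  ∀ (i : ℕ) (hi : i < h.length), LegalMove (h.take i) h[i]

/-- A wins the play iff the intersection of the sets `X_n`, `n ≥ 1`, is empty. -/
def AWins (m : ℕ → Move E) : Prop := (⋂ n : ℕ, (m (n + 1)).chosen) = ∅

/-- Player A (who makes the moves number 0, 2, 4, ...) has a winning strategy. -/
def HasWinningStrategyA (E : Type u) : Prop :=
  ∃ σ : List (Move E) → Move E,
    (∀ h, LegalHistory h → Even h.length → LegalMove h (σ h)) ∧
    ∀ m : ℕ → Move E, IsPlay m → (∀ n, Even n → m n = σ (hist m n)) → AWins m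

/-- Player B (who makes the moves number 1, 3, 5, ...) has a winning strategy. -/
def HasWinningStrategyB (E : Type u) : Prop :=
  ∃ τ : List (Move E) → Move E,
    (∀ h, LegalHistory h → Odd h.length → LegalMove h (τ h)) ∧
    ∀ m : ℕ → Move E, IsPlay m → (∀ n, Odd n → m n = τ (hist m n)) → ¬ AWins m

/-! ### Histories -/

lemma hist_succ (m : ℕ → Move E) (n : ℕ) : hist m (n + 1) = hist m n ++ [m n] := by
  simp [hist, List.range_succ]

lemma legalHistory_nil : LegalHistory ([] : List (Move E)) := by
  intro i hi
  simp at hi

lemma legalHistory_snoc {h : List (Move E)} {m : Move E} (hh : LegalHistory h)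
    (hm : LegalMove h m) : LegalHistory (h ++ [m]) := by
  intro i hi
  rcases Nat.lt_or_ge i h.length with h1 | h1
  · have := hh i h1
    rw [List.take_append_of_le_length h1.le, List.getElem_append_left h1]
    exact this
  · have h2 : i = h.length := by
      simp at hi
      omega
    subst h2
    simpa using hm

/-- The history generated by a rule `next` for the successive moves. -/
def run (next : ℕ → List (Move E) → Move E) : ℕ → List (Move E)
  | 0 => []
  | n + 1 => run next n ++ [next n (run next n)]

lemma run_length (next : ℕ → List (Move E) → Move E) (n : ℕ) : (run next n).length = n := by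
  induction n with
  | zero => rfl
  | succ n ih => simp [run, ih]

lemma hist_run (next : ℕ → List (Move E) → Move E) (n : ℕ) :
    hist (fun k => next k (run next k)) n = run next n := by
  induction n with
  | zero => rfl
  | succ n ih => rw [hist_succ, ih]; rfl

lemma run_legal (next : ℕ → List (Move E) → Move E)
    (hn : ∀ n h, LegalHistory h → h.length = n → LegalMove h (next n h)) (n : ℕ) :
    LegalHistory (run next n) := by
  induction n with
  | zero => exact legalHistory_nil
  | succ n ih => exact legalHistory_snoc ih (hn n _ ih (run_length next n))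

lemma run_isPlay (next : ℕ → List (Move E) → Move E)
    (hn : ∀ n h, LegalHistory h → h.length = n → LegalMove h (next n h)) :
    IsPlay (fun k => next k (run next k)) := by
  intro n
  rw [hist_run]
  exact hn n _ (run_legal next hn n) (run_length next n)

/-- The default move. -/
def dflt : Move E := ⟨Set.univ, Set.univ, ∅⟩

/-- last move of a history -/
def last (h : List (Move E)) : Move E := h.getLast?.getD dflt

@[simp] lemma last_snoc (h : List (Move E)) (m : Move E) : last (h ++ [m]) = m := by
  simp [last]

/-- a piece of a move -/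
def piece (p : Move E) (c : Bool) : Set E := if c then p.left else p.right

/-- The move: choose piece `c` of the last move and split it by the set `S`. -/
def cutMove (c : Bool) (S : Set E) (h : List (Move E)) : Move E :=
  ⟨piece (last h) c, piece (last h) c ∩ S, piece (last h) c \ S⟩

lemma cutMove_legal (c : Bool) (S : Set E) (h : List (Move E)) (hh : h ≠ []) :
    LegalMove h (cutMove c S h) := by
  refine ⟨?_, ?_, ?_, ?_⟩
  · intro p hp
    have : last h = p := by simp [last, hp]
    simp only [cutMove, this, piece]
    cases c <;> simp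
  · intro h0
    exact absurd h0 hh
  · simp only [cutMove]
    exact Set.disjoint_left.mpr (fun x hx hx' => hx'.2 hx.2)
  · simp only [cutMove]
    exact Set.inter_union_sdiff _ _

/-! ### Player A has no winning strategy on an uncountable set -/

section PartA

variable (f : E → ℕ → Bool) (σ : List (Move E) → Move E)

/-- B's answer coded by `a`: pick the piece `a.1` and cut along coordinate `a.2` of `f`. -/
def ansB (a : Bool × ℕ) (h : List (Move E)) : Move E := cutMove a.1 {x | f x a.2 = true} h

/-- Position after A's move when B's previous answers (most recent first) are coded by `l`. -/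
def posA : List (Bool × ℕ) → List (Move E)
  | [] => [σ []]
  | a :: l => (posA l ++ [ansB f a (posA l)]) ++ [σ (posA l ++ [ansB f a (posA l)])]

lemma posA_ne_nil (l : List (Bool × ℕ)) : posA f σ l ≠ [] := by
  cases l <;> simp [posA]

lemma posA_length (l : List (Bool × ℕ)) : (posA f σ l).length = 2 * l.length + 1 := by
  induction l with
  | nil => rfl
  | cons a l ih => simp [posA, ih]; ring

lemma posA_legal (hσ : ∀ h, LegalHistory h → Even h.length → LegalMove h (σ h))
    (l : List (Bool × ℕ)) : LegalHistory (posA f σ l) := by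
  induction l with
  | nil =>
    have := legalHistory_snoc legalHistory_nil (hσ [] legalHistory_nil (by simp))
    simpa [posA] using this
  | cons a l ih =>
    have h1 : LegalHistory (posA f σ l ++ [ansB f a (posA f σ l)]) :=
      legalHistory_snoc ih (cutMove_legal _ _ _ (posA_ne_nil f σ l))
    refine legalHistory_snoc h1 (hσ _ h1 ?_)
    rw [List.length_append, posA_length]
    exact ⟨l.length + 1, by simp; ring⟩

/-- points of the piece `c` that are lost whatever coordinate B uses -/
def stuck (l : List (Bool × ℕ)) (c : Bool) : Set E :=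
  {x | x ∈ piece (last (posA f σ l)) c ∧ ∀ k, x ∉ (last (posA f σ ((c, k) :: l))).chosen}

lemma stuck_image (hσ : ∀ h, LegalHistory h → Even h.length → LegalMove h (σ h))
    (l : List (Bool × ℕ)) (c : Bool) : (f '' stuck f σ l c).Subsingleton := by
  rintro _ ⟨x, hx, rfl⟩ _ ⟨y, hy, rfl⟩
  funext k
  set h := posA f σ l with hh
  set b := ansB f (c, k) h with hb
  have h1 : LegalHistory (h ++ [b]) :=
    legalHistory_snoc (posA_legal f σ hσ l) (cutMove_legal _ _ _ (posA_ne_nil f σ l))
  have hleg : LegalMove (h ++ [b]) (σ (h ++ [b])) := by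
    refine hσ _ h1 ?_
    rw [List.length_append, hh, posA_length]
    exact ⟨l.length + 1, by simp; ring⟩
  have hch := hleg.1 b (by simp)
  have hlast : last (posA f σ ((c, k) :: l)) = σ (h ++ [b]) := by
    rw [posA, ← hh, ← hb, last_snoc]
  have hx2 := hx.2 k
  have hy2 := hy.2 k
  rw [hlast] at hx2 hy2
  have hx1 : x ∈ piece (last h) c := hx.1
  have hy1 : y ∈ piece (last h) c := hy.1
  rcases hch with hch | hch
  · rw [hch] at hx2 hy2
    have e1 : f x k ≠ true := fun e => hx2 ⟨hx1, e⟩
    have e2 : f y k ≠ true := fun e => hy2 ⟨hy1, e⟩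
    rw [Bool.eq_false_iff.mpr e1, Bool.eq_false_iff.mpr e2]
  · rw [hch] at hx2 hy2
    have e1 : f x k = true := by
      by_contra e
      exact hx2 ⟨hx1, e⟩
    have e2 : f y k = true := by
      by_contra e
      exact hy2 ⟨hy1, e⟩
    rw [e1, e2]

lemma exists_unstuck (hσ : ∀ h, LegalHistory h → Even h.length → LegalMove h (σ h))
    (hf : ¬ (Set.range f).Countable) : ∃ x, ∀ l c, x ∉ stuck f σ l c := by
  by_contra hcon
  push Not at hcon
  apply hf
  have h1 : Set.range f ⊆ ⋃ (q : List (Bool × ℕ) × Bool), f '' stuck f σ q.1 q.2 := by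
    rintro _ ⟨x, rfl⟩
    obtain ⟨l, c, hx⟩ := hcon x
    exact Set.mem_iUnion.mpr ⟨(l, c), Set.mem_image_of_mem f hx⟩
  have h2 : (⋃ (q : List (Bool × ℕ) × Bool), f '' stuck f σ q.1 q.2).Countable :=
    Set.countable_iUnion (fun q => (stuck_image f σ hσ q.1 q.2).countable)
  exact h2.mono h1

theorem notA_aux (hf : ¬ (Set.range f).Countable)
    (hσ : ∀ h, LegalHistory h → Even h.length → LegalMove h (σ h))
    (hwin : ∀ m : ℕ → Move E, IsPlay m → (∀ n, Even n → m n = σ (hist m n)) → AWins m) :
    False := by
  obtain ⟨x, hx⟩ := exists_unstuck f σ hσ hf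
  -- the step
  have step : ∀ l : {l : List (Bool × ℕ) // x ∈ (last (posA f σ l)).chosen},
      ∃ a : Bool × ℕ, x ∈ (last (posA f σ (a :: l.1))).chosen := by
    rintro ⟨l, hl⟩
    have hleg : LegalHistory (posA f σ l) := posA_legal f σ hσ l
    have hlen := posA_length f σ l
    -- the last move is legal, so chosen = left ∪ right
    have hsplit : (last (posA f σ l)).left ∪ (last (posA f σ l)).right
        = (last (posA f σ l)).chosen := by
      have h1 := hleg (2 * l.length) (by omega)
      have h2 : (posA f σ l)[2 * l.length]'(by omega) = last (posA f σ l) := by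
        unfold last
        rw [List.getLast?_eq_getElem?]
        simp [hlen]
      rw [h2] at h1
      exact h1.2.2.2
    rw [← hsplit] at hl
    rcases hl with hl | hl
    · have := hx l true
      simp only [stuck, Set.mem_ofPred_eq, not_and, not_forall, not_not] at this
      obtain ⟨k, hk⟩ := this (by simpa [piece] using hl)
      exact ⟨(true, k), hk⟩
    · have := hx l false
      simp only [stuck, Set.mem_ofPred_eq, not_and, not_forall, not_not] at this
      obtain ⟨k, hk⟩ := this (by simpa [piece] using hl)
      exact ⟨(false, k), hk⟩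
  choose nxt hnxt using step
  have hx0 : x ∈ (last (posA f σ [])).chosen := by
    have h1 := (hσ [] legalHistory_nil (by simp)).2.1 rfl
    simp [posA, last, h1]
  let seq : ℕ → {l : List (Bool × ℕ) // x ∈ (last (posA f σ l)).chosen} := fun n =>
    Nat.rec ⟨[], hx0⟩ (fun _ l => ⟨nxt l :: l.1, hnxt l⟩) n
  have seq_succ : ∀ n, (seq (n + 1)).1 = nxt (seq n) :: (seq n).1 := fun n => rfl
  have seq_len : ∀ n, (seq n).1.length = n := by
    intro n
    induction n with
    | zero => rfl
    | succ n ih => rw [seq_succ]; simp [ih]
  let next : ℕ → List (Move E) → Move E := fun n h =>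
    if Even n then σ h else ansB f (nxt (seq (n / 2))) h
  have hrun : ∀ n, run next (2 * n + 1) = posA f σ (seq n).1 := by
    intro n
    induction n with
    | zero => simp [run, next, posA, seq]
    | succ n ih =>
      have e : 2 * (n + 1) + 1 = (2 * n + 1) + 1 + 1 := by ring
      have o1 : ¬ Even (2 * n + 1) := by simp
      have o2 : Even (2 * n + 1 + 1) := ⟨n + 1, by ring⟩
      have o3 : (2 * n + 1) / 2 = n := by omega
      rw [e, run, run, ih, seq_succ]
      simp only [next, if_neg o1, if_pos o2, o3, posA]
  have hnleg : ∀ n h, LegalHistory h → h.length = n → LegalMove h (next n h) := by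
    intro n h hh hlen
    by_cases hn : Even n
    · simp only [next, if_pos hn]
      exact hσ h hh (hlen ▸ hn)
    · simp only [next, if_neg hn]
      refine cutMove_legal _ _ _ ?_
      rintro rfl
      simp at hlen
      exact hn (hlen ▸ Even.zero)
  have hplay := run_isPlay next hnleg
  have hfollow : ∀ n, Even n →
      (fun k => next k (run next k)) n = σ (hist (fun k => next k (run next k)) n) := by
    intro n hn
    rw [hist_run]
    simp only [next, if_pos hn]
  have hA := hwin _ hplay hfollow
  -- x is in every even chosen set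
  have hxe : ∀ n, x ∈ (next (2 * n) (run next (2 * n))).chosen := by
    intro n
    have h1 := hrun n
    have h2 : run next (2 * n + 1) = run next (2 * n) ++ [next (2 * n) (run next (2 * n))] := rfl
    have h3 := (seq n).2
    rw [← h1, h2, last_snoc] at h3
    exact h3
  have hmono : ∀ n, (next (n + 1) (run next (n + 1))).chosen ⊆ (next n (run next n)).chosen := by
    intro n
    have h1 := hplay (n + 1)
    have h2 := hplay n
    rw [hist_run] at h1 h2
    have h3 := h1.1 (next n (run next n)) (by simp [run])
    have h4 := h2.2.2.2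
    simp only at h4
    rcases h3 with h3 | h3
    · simp only at h3
      rw [h3, ← h4]; exact Set.subset_union_left
    · simp only at h3
      rw [h3, ← h4]; exact Set.subset_union_right
  have : x ∈ (⋂ n : ℕ, ((fun k => next k (run next k)) (n + 1)).chosen) := by
    refine Set.mem_iInter.mpr (fun n => ?_)
    rcases Nat.even_or_odd (n + 1) with ⟨k, hk⟩ | ⟨k, hk⟩
    · have := hxe k
      have e : n + 1 = 2 * k := by omega
      simp only [e]
      exact this
    · have h1 := hxe (k + 1)
      have e : 2 * (k + 1) = (n + 1) + 1 := by omega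
      rw [e] at h1
      exact hmono (n + 1) h1
  unfold AWins at hA
  rw [hA] at this
  exact this

end PartA

lemma exists_uncountable_range (E : Type u) [Uncountable E] :
    ∃ f : E → ℕ → Bool, ¬ (Set.range f).Countable := by
  have h1 : ℵ₁ ≤ #E := by
    rw [← Cardinal.succ_aleph0]
    exact Order.succ_le_of_lt (Cardinal.aleph0_lt_mk)
  obtain ⟨s, hs⟩ := Cardinal.le_mk_iff_exists_set.mp h1
  have h2 : #s ≤ #(ULift.{u} (ℕ → Bool)) := by
    rw [hs]
    have e : #(ULift.{u} (ℕ → Bool)) = 𝔠 := by simp
    rw [e]
    exact Cardinal.aleph_one_le_continuum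
  obtain ⟨g⟩ := h2
  classical
  refine ⟨fun x => if hx : x ∈ s then (g ⟨x, hx⟩).down else fun _ => false, fun hc => ?_⟩
  have hinj : Function.Injective (fun x : s => (g x).down) := by
    intro a b hab
    exact g.injective (ULift.down_injective hab)
  have hsub : Set.range (fun x : s => (g x).down) ⊆
      Set.range (fun x : E => if hx : x ∈ s then (g ⟨x, hx⟩).down else fun _ => false) := by
    rintro _ ⟨x, rfl⟩
    refine ⟨x.1, ?_⟩
    simp
  have hc2 := hc.mono hsub
  have hcs : Countable s := by
    have : Countable (Set.range (fun x : s => (g x).down)) := hc2.to_subtype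
    exact (Set.rangeFactorization_injective.mpr hinj).countable
  have : #s ≤ ℵ₀ := Cardinal.mk_le_aleph0_iff.mpr hcs
  rw [hs] at this
  exact absurd this (not_le.mpr Cardinal.aleph0_lt_aleph_one)

theorem not_hasWinningStrategyA (E : Type u) [Uncountable E] : ¬ HasWinningStrategyA E := by
  rintro ⟨σ, hσ, hwin⟩
  obtain ⟨f, hf⟩ := exists_uncountable_range E
  exact notA_aux f σ hf hσ hwin

/-! ### A Bernstein type splitting lemma -/

theorem bernstein {ι X : Type} (κ : Cardinal.{0}) (hκ : ℵ₀ ≤ κ) (hι : #ι ≤ κ)
    (S : ι → Set X) (hS : ∀ i, κ ≤ #(S i)) :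
    ∃ D : Set X, ∀ i, (S i ∩ D).Nonempty ∧ (S i \ D).Nonempty := by
  classical
  obtain ⟨r, wo, hr⟩ := Cardinal.exists_ord_eq ι
  have hseg : ∀ i, #{j // r j i} < κ := by
    intro i
    refine lt_of_lt_of_le ?_ hι
    have := Ordinal.typein_lt_type r i
    rw [← hr] at this
    have h2 := Cardinal.lt_ord.mp this
    rwa [Ordinal.card_typein] at h2
  have hex : ∀ (i : ι) (g : (j : ι) → r j i → X × X), ∃ p : X × X,
      p.1 ∈ S i ∧ p.2 ∈ S i ∧ p.1 ≠ p.2 ∧
      ∀ j (hj : r j i), p.1 ≠ (g j hj).1 ∧ p.1 ≠ (g j hj).2 ∧ p.2 ≠ (g j hj).1 ∧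
        p.2 ≠ (g j hj).2 := by
    intro i g
    let U : Set X := (Set.range (fun q : {j // r j i} => (g q.1 q.2).1)) ∪
      (Set.range (fun q : {j // r j i} => (g q.1 q.2).2))
    have hU : #U < κ := by
      refine lt_of_le_of_lt (Cardinal.mk_union_le _ _) ?_
      exact Cardinal.add_lt_of_lt hκ (lt_of_le_of_lt Cardinal.mk_range_le (hseg i))
        (lt_of_le_of_lt Cardinal.mk_range_le (hseg i))
    have hdiff : κ ≤ #(S i \ U : Set X) := by
      by_contra hlt
      push Not at hlt
      have h1 : #(S i) ≤ #((S i \ U) ∪ U : Set X) := Cardinal.mk_le_mk_of_subset (by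
        intro x hx
        by_cases hxU : x ∈ U
        · exact Or.inr hxU
        · exact Or.inl ⟨hx, hxU⟩)
      have h2 : #((S i \ U) ∪ U : Set X) < κ :=
        lt_of_le_of_lt (Cardinal.mk_union_le _ _) (Cardinal.add_lt_of_lt hκ hlt hU)
      exact absurd (hS i) (not_le.mpr (lt_of_le_of_lt h1 h2))
    have hinf : (S i \ U : Set X).Infinite := by
      rw [← Set.infinite_coe_iff, Cardinal.infinite_iff]
      exact hκ.trans hdiff
    obtain ⟨a, ha⟩ := hinf.nonempty
    obtain ⟨b, hb, hba⟩ := hinf.exists_notMem_finite (Set.finite_singleton a)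
    refine ⟨(a, b), ha.1, hb.1, fun e => hba (by simpa using e.symm), ?_⟩
    intro j hj
    refine ⟨fun e => ha.2 (Or.inl ⟨⟨j, hj⟩, e.symm⟩), fun e => ha.2 (Or.inr ⟨⟨j, hj⟩, e.symm⟩),
      fun e => hb.2 (Or.inl ⟨⟨j, hj⟩, e.symm⟩), fun e => hb.2 (Or.inr ⟨⟨j, hj⟩, e.symm⟩)⟩
  choose F hF using hex
  have hwf : WellFounded r := wo.wf
  let P : ι → X × X := hwf.fix F
  have hP : ∀ i, P i = F i (fun j _ => P j) := fun i => hwf.fix_eq F i
  have key : ∀ i, (P i).1 ∈ S i ∧ (P i).2 ∈ S i ∧ (P i).1 ≠ (P i).2 ∧
      ∀ j, r j i → (P i).1 ≠ (P j).1 ∧ (P i).1 ≠ (P j).2 ∧ (P i).2 ≠ (P j).1 ∧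
        (P i).2 ≠ (P j).2 := by
    intro i
    have := hF i (fun j _ => P j)
    rw [← hP i] at this
    exact this
  refine ⟨Set.range (fun i => (P i).1), fun i => ⟨⟨(P i).1, (key i).1, ⟨i, rfl⟩⟩, ?_⟩⟩
  refine ⟨(P i).2, (key i).2.1, ?_⟩
  rintro ⟨j, hj⟩
  simp only at hj
  rcases trichotomous_of r i j with h | h | h
  · exact ((key j).2.2.2 i h).2.1 hj
  · subst h
    exact (key i).2.2.1 hj
  · exact ((key i).2.2.2 j h).2.2.1 hj.symm

/-! ### Player B has no winning strategy on a set of size at most the continuum -/

/-- the list `[r (n-1), ..., r 0]` -/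
def pre (r : ℕ → Bool) : ℕ → List Bool
  | 0 => []
  | n + 1 => r n :: pre r n

lemma pre_length (r : ℕ → Bool) (n : ℕ) : (pre r n).length = n := by
  induction n with
  | zero => rfl
  | succ n ih => simp [pre, ih]

lemma pre_congr {r s : ℕ → Bool} {n : ℕ} (h : ∀ k < n, r k = s k) : pre r n = pre s n := by
  induction n with
  | zero => rfl
  | succ n ih =>
    simp only [pre]
    rw [h n (Nat.lt_succ_self n), ih (fun k hk => h k (Nat.lt_succ_of_lt hk))]

/-- the map of the Cantor set into itself coded by `φ` -/
def G (φ : List Bool → Bool) (r : ℕ → Bool) : ℕ → Bool := fun k => φ (pre r (k + 1))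

theorem exists_splitting : ∃ D : Set (ℕ → Bool), ∀ φ : List Bool → Bool,
    Function.Injective (G φ) → (Set.range (G φ) ∩ D).Nonempty ∧ (Set.range (G φ) \ D).Nonempty := by
  have h1 : #{φ : List Bool → Bool // Function.Injective (G φ)} ≤ 𝔠 := by
    refine (Cardinal.mk_subtype_le _).trans ?_
    simp
  obtain ⟨D, hD⟩ := bernstein (ι := {φ : List Bool → Bool // Function.Injective (G φ)}) 𝔠
    Cardinal.aleph0_le_continuum h1 (fun φ => Set.range (G φ.1)) (by
      intro φ
      rw [Cardinal.mk_range_eq _ φ.2]
      simp)
  exact ⟨D, fun φ hφ => hD ⟨φ, hφ⟩⟩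

section PartB

variable (f : E → ℕ → Bool) (D : Set (ℕ → Bool)) (τ : List (Move E) → Move E)

/-- A's first move -/
def firstA : Move E := ⟨Set.univ, f ⁻¹' D, (f ⁻¹' D)ᶜ⟩

/-- Position after B's move when A's choices (most recent first) are coded by `l`. -/
def posB : List Bool → List (Move E)
  | [] => [firstA f D] ++ [τ [firstA f D]]
  | b :: l => (posB l ++ [cutMove b {x | f x l.length = true} (posB l)]) ++
      [τ (posB l ++ [cutMove b {x | f x l.length = true} (posB l)])]

lemma posB_ne_nil (l : List Bool) : posB f D τ l ≠ [] := by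
  cases l <;> simp [posB]

lemma posB_length (l : List Bool) : (posB f D τ l).length = 2 * l.length + 2 := by
  induction l with
  | nil => rfl
  | cons a l ih => simp [posB, ih]; ring

lemma firstA_legal : LegalMove [] (firstA f D) := by
  refine ⟨by simp, fun _ => rfl, ?_, ?_⟩
  · simp only [firstA]; exact disjoint_compl_right
  · simp only [firstA]; exact Set.union_compl_self _

lemma posB_legal (hτ : ∀ h, LegalHistory h → Odd h.length → LegalMove h (τ h))
    (l : List Bool) : LegalHistory (posB f D τ l) := by
  induction l with
  | nil =>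
    have h1 : LegalHistory [firstA f D] := by
      have := legalHistory_snoc legalHistory_nil (firstA_legal f D)
      simpa using this
    exact legalHistory_snoc h1 (hτ _ h1 (by simp))
  | cons b l ih =>
    have h1 : LegalHistory (posB f D τ l ++ [cutMove b {x | f x l.length = true} (posB f D τ l)]) :=
      legalHistory_snoc ih (cutMove_legal _ _ _ (posB_ne_nil f D τ l))
    refine legalHistory_snoc h1 (hτ _ h1 ?_)
    rw [List.length_append, posB_length]
    exact ⟨l.length + 1, by simp; ring⟩

theorem notB_aux (hf : Function.Injective f)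
    (hD : ∀ φ : List Bool → Bool,
      Function.Injective (G φ) → (Set.range (G φ) ∩ D).Nonempty ∧ (Set.range (G φ) \ D).Nonempty)
    (hτ : ∀ h, LegalHistory h → Odd h.length → LegalMove h (τ h))
    (hwin : ∀ m : ℕ → Move E, IsPlay m → (∀ n, Odd n → m n = τ (hist m n)) → ¬ AWins m) :
    False := by
  classical
  let next : (ℕ → Bool) → ℕ → List (Move E) → Move E := fun r n h =>
    if Odd n then τ h else if n = 0 then firstA f D else
      cutMove (r (n / 2 - 1)) {x | f x (n / 2 - 1) = true} h
  have hrun : ∀ r n, run (next r) (2 * n + 2) = posB f D τ (pre r n) := by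
    intro r n
    induction n with
    | zero => simp [run, next, posB, pre]
    | succ n ih =>
      have e : 2 * (n + 1) + 2 = (2 * n + 2) + 1 + 1 := by ring
      have o1 : ¬ Odd (2 * n + 2) := by
        rw [Nat.not_odd_iff_even]; exact ⟨n + 1, by ring⟩
      have o2 : Odd (2 * n + 2 + 1) := ⟨n + 1, by ring⟩
      have o3 : (2 * n + 2) / 2 - 1 = n := by omega
      have o4 : ¬ (2 * n + 2 = 0) := by omega
      rw [e, run, run, ih]
      simp only [next, if_neg o1, if_pos o2, if_neg o4, o3, posB, pre, pre_length]
  have hnleg : ∀ r n h, LegalHistory h → h.length = n → LegalMove h (next r n h) := by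
    intro r n h hh hlen
    by_cases hn : Odd n
    · simp only [next, if_pos hn]
      exact hτ h hh (hlen ▸ hn)
    · simp only [next, if_neg hn]
      by_cases h0 : n = 0
      · rw [if_pos h0]
        subst h0
        rw [List.length_eq_zero_iff.mp hlen]
        exact firstA_legal f D
      · rw [if_neg h0]
        refine cutMove_legal _ _ _ ?_
        rintro rfl
        simp at hlen
        exact h0 hlen.symm
  have hplay := fun r => run_isPlay (next r) (hnleg r)
  have hB : ∀ r, ∃ x, ∀ n, x ∈ (next r (n + 1) (run (next r) (n + 1))).chosen := by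
    intro r
    have hfollow : ∀ n, Odd n →
        (fun k => next r k (run (next r) k)) n = τ (hist (fun k => next r k (run (next r) k)) n) := by
      intro n hn
      rw [hist_run]
      simp only [next, if_pos hn]
    have := hwin _ (hplay r) hfollow
    unfold AWins at this
    rw [← Ne, ← Set.nonempty_iff_ne_empty] at this
    obtain ⟨x, hx⟩ := this
    exact ⟨x, fun n => Set.mem_iInter.mp hx n⟩
  choose y hy using hB
  -- the code
  let φ : List Bool → Bool := fun l =>
    match l with
    | [] => true
    | b :: l => decide ((last (posB f D τ (b :: l))).chosen =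
        (cutMove b {x | f x l.length = true} (posB f D τ l)).left)
  have hmove : ∀ r n, next r (2 * n + 2) (run (next r) (2 * n + 2)) =
      cutMove (r n) {x | f x n = true} (posB f D τ (pre r n)) := by
    intro r n
    have o1 : ¬ Odd (2 * n + 2) := by
      rw [Nat.not_odd_iff_even]; exact ⟨n + 1, by ring⟩
    have o3 : (2 * n + 2) / 2 - 1 = n := by omega
    have o4 : ¬ (2 * n + 2 = 0) := by omega
    rw [hrun]
    simp only [next, if_neg o1, if_neg o4, o3]
  have hmove' : ∀ r n, next r (2 * n + 3) (run (next r) (2 * n + 3)) =
      last (posB f D τ (pre r (n + 1))) := by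
    intro r n
    have h2 : run (next r) (2 * (n + 1) + 2) =
      run (next r) (2 * n + 3) ++ [next r (2 * n + 3) (run (next r) (2 * n + 3))] := rfl
    rw [← hrun, h2, last_snoc]
  have hG : ∀ r, G φ r = f (y r) := by
    intro r
    funext k
    have h1 := hmove r k
    have h2 := hmove' r k
    have hmem := hy r (2 * k + 2)
    have hleg := hplay r (2 * k + 3)
    rw [hist_run] at hleg
    have h3 := hleg.1 (next r (2 * k + 2) (run (next r) (2 * k + 2))) (by simp [run])
    simp only at h3
    have hmem' : y r ∈ (next r (2 * k + 3) (run (next r) (2 * k + 3))).chosen := hmem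
    have hφ : G φ r k = decide ((next r (2 * k + 3) (run (next r) (2 * k + 3))).chosen =
        (next r (2 * k + 2) (run (next r) (2 * k + 2))).left) := by
      rw [h1, h2]
      simp only [G, pre, φ, pre_length]
      congr
    rw [hφ]
    by_cases hc : (next r (2 * k + 3) (run (next r) (2 * k + 3))).chosen =
        (next r (2 * k + 2) (run (next r) (2 * k + 2))).left
    · rw [decide_eq_true hc]
      rw [hc, h1] at hmem'
      exact hmem'.2.symm
    · rw [decide_eq_false hc]
      rcases h3 with h3 | h3
      · exact absurd h3 hc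
      · rw [h3, h1] at hmem'
        have : ¬ (f (y r) k = true) := hmem'.2
        exact (Bool.eq_false_iff.mpr this).symm
  have hinj : Function.Injective (G φ) := by
    intro r s hrs
    by_contra hne
    rw [hG, hG] at hrs
    have hxy : y r = y s := hf hrs
    have hex : ∃ k, r k ≠ s k := by
      by_contra hcon
      push Not at hcon
      exact hne (funext hcon)
    let k := Nat.find hex
    have hk : r k ≠ s k := Nat.find_spec hex
    have hlt : ∀ j < k, r j = s j := fun j hj => by
      by_contra hcon
      exact Nat.find_min hex hj hcon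
    have hpre : pre r k = pre s k := pre_congr hlt
    have h1 := hy r (2 * k + 1)
    have h2 := hy s (2 * k + 1)
    have e : 2 * k + 1 + 1 = 2 * k + 2 := rfl
    rw [e, hmove] at h1 h2
    rw [← hpre, ← hxy] at h2
    simp only [cutMove] at h1 h2
    have hleg := posB_legal f D τ hτ (pre r k)
    have hlen := posB_length f D τ (pre r k)
    have hdisj : Disjoint (last (posB f D τ (pre r k))).left (last (posB f D τ (pre r k))).right := by
      have h3 := hleg (2 * (pre r k).length + 1) (by omega)
      have h4 : (posB f D τ (pre r k))[2 * (pre r k).length + 1]'(by omega) =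
          last (posB f D τ (pre r k)) := by
        unfold last
        rw [List.getLast?_eq_getElem?]
        simp [hlen]
      rw [h4] at h3
      exact h3.2.2.1
    cases hr : r k <;> cases hs : s k
    · exact hk (hr.trans hs.symm)
    · rw [hr] at h1; rw [hs] at h2
      exact Set.disjoint_left.mp hdisj h2 h1
    · rw [hr] at h1; rw [hs] at h2
      exact Set.disjoint_left.mp hdisj h1 h2
    · exact hk (hr.trans hs.symm)
  obtain ⟨⟨z, ⟨r, hr⟩, hzD⟩, ⟨w, ⟨s, hs⟩, hwD⟩⟩ := hD φ hinj
  have h1r := hy r 0
  have h1s := hy s 0
  have hfirst : ∀ r, next r (0 + 1) (run (next r) (0 + 1)) = τ [firstA f D] := by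
    intro r
    simp [next, run]
  rw [hfirst] at h1r h1s
  have h0 : LegalHistory [firstA f D] := by
    have := legalHistory_snoc legalHistory_nil (firstA_legal f D)
    simpa using this
  have h5 := (hτ _ h0 (by simp)).1 (firstA f D) (by simp)
  rw [hG] at hr hs
  subst hr
  subst hs
  rcases h5 with h5 | h5
  · rw [h5] at h1s
    exact hwD h1s
  · rw [h5] at h1r
    exact h1r hzD

end PartB

theorem not_hasWinningStrategyB (E : Type u) (hE : #E ≤ 𝔠) : ¬ HasWinningStrategyB E := by
  rintro ⟨τ, hτ, hwin⟩
  obtain ⟨D, hD⟩ := exists_splitting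
  have h2 : #E ≤ #(ULift.{u} (ℕ → Bool)) := by
    have e : #(ULift.{u} (ℕ → Bool)) = 𝔠 := by simp
    rw [e]
    exact hE
  obtain ⟨g⟩ := h2
  exact notB_aux (fun x => (g x).down) D τ
    (fun a b hab => g.injective (ULift.down_injective hab)) hD hτ hwin

/-- Sanity check of the definitions: on a countable set A does have a winning strategy. -/
theorem hasWinningStrategyA_of_countable (E : Type u) [Countable E] : HasWinningStrategyA E := by
  classical
  rcases isEmpty_or_nonempty E with hE | hE
  · refine ⟨fun h => if h = [] then dflt else cutMove true Set.univ h, ?_, ?_⟩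
    · intro h _ _
      by_cases h0 : h = []
      · subst h0
        simp [LegalMove, dflt]
      · simp only [if_neg h0]
        exact cutMove_legal _ _ _ h0
    · intro m _ _
      exact Set.eq_empty_of_isEmpty _
  · obtain ⟨e, he⟩ := exists_surjective_nat E
    refine ⟨fun h => if h = [] then dflt else
      cutMove (if e (h.length / 2 - 1) ∈ (last h).left then false else true) Set.univ h, ?_, ?_⟩
    · intro h _ _
      by_cases h0 : h = []
      · subst h0
        simp [LegalMove, dflt]
      · simp only [if_neg h0]
        exact cutMove_legal _ _ _ h0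
    · intro m hm hf
      refine Set.eq_empty_iff_forall_notMem.mpr (fun x hx => ?_)
      obtain ⟨k, rfl⟩ := he x
      have h1 := Set.mem_iInter.mp hx (2 * k + 1)
      have h2 := hf (2 * k + 1 + 1) ⟨k + 1, by ring⟩
      have h3 : hist m (2 * k + 1 + 1) ≠ [] := by simp [hist]
      have h4 : (hist m (2 * k + 1 + 1)).length = 2 * k + 2 := by simp [hist]
      have h5 : last (hist m (2 * k + 1 + 1)) = m (2 * k + 1) := by
        rw [hist_succ, last_snoc]
      have h6 : (2 * k + 2) / 2 - 1 = k := by omega
      rw [h2] at h1
      simp only [if_neg h3, h4, h5, h6, cutMove] at h1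
      have h7 := (hm (2 * k + 1)).2.2.1
      by_cases hc : e k ∈ (m (2 * k + 1)).left
      · rw [if_pos hc] at h1
        exact Set.disjoint_left.mp h7 hc h1
      · rw [if_neg hc] at h1
        exact hc h1

/-- On an uncountable set A has no winning strategy, and if the set has at most continuum many
elements then B has none either, so the game is undetermined. -/
theorem result (E : Type u) [Uncountable E] :
    ¬ HasWinningStrategyA E ∧ (#E ≤ 𝔠 → ¬ HasWinningStrategyB E) :=
  ⟨not_hasWinningStrategyA E, not_hasWinningStrategyB E⟩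

end Pool.Agent.Results.MP_c086f7_lc.Undetermined
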